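import Pool.Agent.T2h8.FGRF.Grp3
import Pool.Agent.H53R2.UB2

/-!
# Residual finiteness from the universal identity
-/

set_option autoImplicit false
set_option linter.unusedSectionVars false
set_option linter.style.haveILetI false

namespace Pool.Agent.T2h8.FGRF

open Pool.Agent.Helper294.HallC Pool.Agent.H53R2
open scoped commutatorElement

theorem Lw_bot_succ {G : Type} [Group G] {S X : Subgroup G} {k : ℕ} (h : Lw S k X = ⊥) :
    Lw S (k + 1) X = ⊥ := by
  rw [Lw_succ, h, Subgroup.commutator_bot_left]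

theorem le_ctr {G : Type} [Group G] {N X : Subgroup G} (h1 : X ≤ N) (h2 : ⁅X, N⁆ = ⊥) :
    X ≤ ctr N := by
  refine le_inf h1 fun x hx => ?_
  rw [Subgroup.mem_centralizer_iff_commutator_eq_one']
  intro y hy
  have h3 := Subgroup.commutator_mem_commutator hx hy
  rw [h2, Subgroup.mem_bot] at h3
  exact h3

/-- passing to a subgroup of finite index of `N` -/
theorem data_sub {G : Type} [Group G] (N : Subgroup G) [N.Normal] (H : Subgroup G) [H.Normal]
    [H.FiniteIndex] (m : ℕ) (hH : Lw H m H ≤ N) (N₁ : Subgroup G) [N₁.Normal] (hN₁ : N₁ ≤ N)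
    (hidx : N₁.relIndex N ≠ 0) :
    ∃ H₁ : Subgroup G, H₁.Normal ∧ H₁.FiniteIndex ∧ Lw H₁ (m + 1) H₁ ≤ N₁ := by
  have hfin : Finite ↥(N.map (QuotientGroup.mk' N₁)) := by
    have h1 : Finite (↥N ⧸ N₁.subgroupOf N) := Nat.finite_of_card_ne_zero hidx
    let f : ↥N ⧸ N₁.subgroupOf N → ↥(N.map (QuotientGroup.mk' N₁)) := fun x =>
      Quotient.liftOn' x (fun y => ⟨QuotientGroup.mk' N₁ y, ⟨y, y.2, rfl⟩⟩) (by
        intro a b hab
        apply Subtype.ext
        change QuotientGroup.mk' N₁ (a : G) = QuotientGroup.mk' N₁ (b : G)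
        rw [QuotientGroup.leftRel_apply, Subgroup.mem_subgroupOf] at hab
        exact QuotientGroup.eq.2 hab)
    refine Finite.of_surjective f ?_
    rintro ⟨_, y, hy, rfl⟩
    exact ⟨QuotientGroup.mk ⟨y, hy⟩, rfl⟩
  haveI : (N.map (QuotientGroup.mk' N₁)).Normal :=
    Subgroup.Normal.map inferInstance _ (QuotientGroup.mk'_surjective N₁)
  haveI := centralizer_fin (N.map (QuotientGroup.mk' N₁))
  let C : Subgroup G := (Subgroup.centralizer (N.map (QuotientGroup.mk' N₁) : Set (G ⧸ N₁))).comap
    (QuotientGroup.mk' N₁)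
  have hC : C.FiniteIndex := by
    refine ⟨?_⟩
    rw [Subgroup.index_comap_of_surjective _ (QuotientGroup.mk'_surjective N₁)]
    exact Subgroup.FiniteIndex.index_ne_zero
  haveI hCn : C.Normal := Subgroup.Normal.comap inferInstance _
  have hNC : ⁅N, C⁆ ≤ N₁ := by
    rw [Subgroup.commutator_le]
    intro a ha b hb
    have h1 := Subgroup.mem_centralizer_iff_commutator_eq_one.1 hb (QuotientGroup.mk' N₁ a)
      ⟨a, ha, rfl⟩
    rw [← map_commutatorElement, QuotientGroup.mk'_apply, QuotientGroup.eq_one_iff] at h1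
    exact h1
  refine ⟨H ⊓ C, inferInstance, inferInstance, ?_⟩
  rw [Lw_succ]
  refine (Subgroup.commutator_mono ?_ inf_le_right).trans hNC
  exact (Lw_mono inf_le_left inf_le_left m).trans hH

theorem nilp_finite {G : Type} [Group G] [Group.FG G] (hmax : MaxN G) (u : UI) (hu : u.Grp G)
    {g₀ : G} (hg₀ : MonoG g₀) (c : ℕ) :
    ∀ (N : Subgroup G), N.Normal → ∀ (H : Subgroup G), H.Normal → H.FiniteIndex →
      ∀ m : ℕ, Lw H m H ≤ N → Lw N c N = ⊥ → Finite ↥N := by
  induction c with
  | zero =>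
    intro N _ H _ _ m _ hc
    rw [Lw_zero] at hc
    rw [hc]
    infer_instance
  | succ c ih =>
    intro N hN H hHn hHf m hH hc
    have hcf : Finite ↥(ctr N) := center_finite hmax hg₀ N H m hH (c + 1) hc
    cases c with
    | zero =>
      have h1 : N ≤ ctr N := le_ctr le_rfl (by rw [Lw_succ, Lw_zero] at hc; exact hc)
      exact Finite.of_injective (Subgroup.inclusion h1) (Subgroup.inclusion_injective h1)
    | succ c =>
      have hXn : (Lw N c N).Normal := inferInstance
      have hXN : Lw N c N ≤ N := Lw_le N N c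
      have hX : ⁅Lw N c N, N⁆ ≤ ctr N := by
        rw [← Lw_succ]
        exact le_ctr (Lw_le N N _) (by rw [← Lw_succ]; exact hc)
      have hidx := section_finite hmax u hu N H m hH (Lw N c N) hXN hX hcf
      set N₁ : Subgroup G := N ⊓ Subgroup.centralizer (Lw N c N : Set G) with hN₁
      haveI : N₁.Normal := inferInstance
      obtain ⟨H₁, h1, h2, h3⟩ := data_sub N H m hH N₁ inf_le_left hidx
      have hfin₁ : Finite ↥N₁ := by
        refine ih N₁ inferInstance H₁ h1 h2 (m + 1) h3 ?_
        rw [Lw_succ, eq_bot_iff]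
        have h4 : Lw N₁ c N₁ ≤ Lw N c N := Lw_mono inf_le_left inf_le_left c
        refine (Subgroup.commutator_mono h4 (inf_le_right : N₁ ≤ _)).trans ?_
        rw [Subgroup.commutator_le]
        intro a ha b hb
        rw [Subgroup.mem_bot]
        exact Subgroup.mem_centralizer_iff_commutator_eq_one.1 hb a ha
      have h5 : Finite ↥(N₁.subgroupOf N) :=
        Finite.of_injective (fun x : ↥(N₁.subgroupOf N) => (⟨x.1.1, x.2⟩ : ↥N₁)) (by
          intro a b hab
          apply Subtype.ext
          apply Subtype.ext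
          exact congrArg (fun z : ↥N₁ => (z : G)) hab)
      have h6 : (N₁.subgroupOf N).FiniteIndex := ⟨hidx⟩
      exact (Subgroup.finite_iff_finite_and_finiteIndex (N₁.subgroupOf N)).2 ⟨h5, h6⟩

/-- finitely generated monolithic groups with the universal identity are finite -/
theorem mono_group_finite {G : Type} [Group G] [Group.FG G] (hmax : MaxN G) (hVN : VN G) (u : UI)
    (hu : u.Grp G) {g₀ : G} (hg₀ : MonoG g₀) : Finite G := by
  obtain ⟨H, hHn, hHf, m, c, hmc⟩ := hVN
  have hNfin : Finite ↥(Lw H m H) :=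
    nilp_finite hmax u hu hg₀ c (Lw H m H) inferInstance H hHn hHf m le_rfl hmc
  haveI := centralizer_fin (Lw H m H)
  set K : Subgroup G := H ⊓ Subgroup.centralizer (Lw H m H : Set G) with hK
  have hKn : K.Normal := inferInstance
  have hKf : K.FiniteIndex := inferInstance
  have hKm : Lw K (m + 1) K = ⊥ := by
    rw [Lw_succ, eq_bot_iff]
    have h4 : Lw K m K ≤ Lw H m H := Lw_mono inf_le_left inf_le_left m
    refine (Subgroup.commutator_mono h4 (inf_le_right : K ≤ _)).trans ?_
    rw [Subgroup.commutator_le]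
    intro a ha b hb
    rw [Subgroup.mem_bot]
    exact Subgroup.mem_centralizer_iff_commutator_eq_one.1 hb a ha
  have hKfin : Finite ↥K := nilp_finite hmax u hu hg₀ (m + 1) K hKn K hKn hKf 0 le_rfl hKm
  exact (Subgroup.finite_iff_finite_and_finiteIndex K).2 ⟨hKfin, hKf⟩

/-- residually finite: nontrivial elements survive in finite quotients -/
def ResFin (G : Type) [Group G] : Prop :=
  ∀ g : G, g ≠ 1 → ∃ N : Subgroup G, N.Normal ∧ N.FiniteIndex ∧ g ∉ N

theorem resFin_of_UI {G : Type} [Group G] [Group.FG G] (hmax : MaxN G) (hVN : VN G) (u : UI)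
    (hu : u.Grp G) : ResFin G := by
  intro g hg
  obtain ⟨N, ⟨hN, hgN⟩, hmaxN⟩ := hmax.exists_max (fun N => N.Normal ∧ g ∉ N) (fun N h => h.1)
    ⟨⊥, inferInstance, fun h => hg (Subgroup.mem_bot.1 h)⟩
  have hmono : MonoG (QuotientGroup.mk' N g) := by
    refine ⟨fun h => hgN ((QuotientGroup.eq_one_iff g).1 h), fun K hK hK0 => ?_⟩
    by_contra hcon
    have h1 := hmaxN (K.comap (QuotientGroup.mk' N)) ⟨hK.comap _, hcon⟩ (by
      intro x hx
      rw [Subgroup.mem_comap, QuotientGroup.mk'_apply, (QuotientGroup.eq_one_iff x).2 hx]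
      exact K.one_mem)
    apply hK0
    rw [← Subgroup.map_comap_eq_self_of_surjective (QuotientGroup.mk'_surjective N) K, h1,
      QuotientGroup.map_mk'_self]
  have hfin : Finite (G ⧸ N) := mono_group_finite
    (hmax.of_surjective _ (QuotientGroup.mk'_surjective N))
    (hVN.of_surjective _ (QuotientGroup.mk'_surjective N)) u
    (hu.of_surjective _ (QuotientGroup.mk'_surjective N)) hmono
  exact ⟨N, hN, Subgroup.finiteIndex_of_finite_quotient, hgN⟩

/-- Mal'cev: finitely generated residually finite groups are Hopfian -/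
theorem hopf_of_resFin {G : Type} [Group G] [Group.FG G] (h : ResFin G) (φ : G →* G)
    (hφ : Function.Surjective φ) : Function.Injective φ := by
  rw [injective_iff_map_eq_one]
  intro g hg
  by_contra hne
  obtain ⟨N, hN, hNf, hgN⟩ := h g hne
  obtain ⟨S, hS⟩ := (Group.fg_iff_subgroup_fg (⊤ : Subgroup G)).1 (Group.fg_iff_subgroup_fg ⊤ |>.2 Group.FG.out)
  haveI : Finite (G ⧸ N) := inferInstance
  have hfin : Finite (G →* G ⧸ N) := by
    refine Finite.of_injective (fun (f : G →* G ⧸ N) (s : S) => f s) ?_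
    intro f f' hff
    apply MonoidHom.eq_of_eqOn_dense hS
    intro s hs
    exact congrFun hff ⟨s, hs⟩
  have hinj : Function.Injective (fun f : G →* G ⧸ N => f.comp φ) := by
    intro f f' hff
    ext x
    obtain ⟨y, rfl⟩ := hφ x
    exact DFunLike.congr_fun hff y
  obtain ⟨ψ, hψ⟩ := Finite.surjective_of_injective hinj (QuotientGroup.mk' N)
  have h1 := DFunLike.congr_fun hψ g
  change ψ (φ g) = QuotientGroup.mk' N g at h1
  rw [hg, map_one] at h1
  exact hgN ((QuotientGroup.eq_one_iff g).1 h1.symm)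

end Pool.Agent.T2h8.FGRF
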