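import Pool.Agent.T2h8.FGRF.NoeJ
import Pool.Agent.Helper294.HallC.Base

/-!
# P. Hall's generic freeness for modules over polycyclic groups
-/

set_option autoImplicit false
set_option linter.unusedSectionVars false

namespace Pool.Agent.T2h8.FGRF

section sec
variable {J Γ A : Type} [CommRing J] [Group Γ] [AddCommGroup A] [Module J A]
  [DistribMulAction Γ A] [SMulCommClass Γ J A]

/-- the section `B / (B ⊓ C)` contains a free `J`-submodule with `f`-torsion quotient. -/
def QF (f : J) (B C : Submodule J A) : Prop :=
  ∃ (ι : Type) (v : ι → A), (∀ i, v i ∈ B) ∧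
    (∀ c : ι →₀ J, Finsupp.linearCombination J v c ∈ C → c = 0) ∧
    ∀ b ∈ B, ∃ n : ℕ, f ^ n • b ∈ C ⊔ Submodule.span J (Set.range v)

theorem QF.mono {f g : J} {B C : Submodule J A} (h : QF f B C) (hfg : f ∣ g) : QF g B C := by
  obtain ⟨ι, v, h1, h2, h3⟩ := h
  obtain ⟨e, rfl⟩ := hfg
  refine ⟨ι, v, h1, h2, fun b hb => ?_⟩
  obtain ⟨n, hn⟩ := h3 b hb
  refine ⟨n, ?_⟩
  rw [mul_pow, mul_comm, mul_smul]
  exact Submodule.smul_mem _ _ hn

theorem QF.sup {f : J} {B C : Submodule J A} (h : QF f (B ⊔ C) C) : QF f B C := by
  obtain ⟨ι, v, h1, h2, h3⟩ := h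
  have h1' : ∀ i, ∃ w, w ∈ B ∧ v i - w ∈ C := by
    intro i
    obtain ⟨w, hw, c, hc, hwc⟩ := Submodule.mem_sup.1 (h1 i)
    exact ⟨w, hw, by rw [← hwc, add_sub_cancel_left]; exact hc⟩
  choose w hw hwc using h1'
  refine ⟨ι, w, hw, fun c hc => h2 c ?_, fun b hb => ?_⟩
  · have h4 : Finsupp.linearCombination J v c - Finsupp.linearCombination J w c ∈ C := by
      rw [Finsupp.linearCombination_apply, Finsupp.linearCombination_apply, Finsupp.sum,
        Finsupp.sum, ← Finset.sum_sub_distrib]
      refine Submodule.sum_mem _ fun i _ => ?_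
      rw [← smul_sub]
      exact C.smul_mem _ (hwc i)
    have := C.add_mem h4 hc
    rwa [sub_add_cancel] at this
  · obtain ⟨n, hn⟩ := h3 b (Submodule.mem_sup_left hb)
    refine ⟨n, ?_⟩
    have hle : C ⊔ Submodule.span J (Set.range v) ≤ C ⊔ Submodule.span J (Set.range w) := by
      refine sup_le le_sup_left ?_
      rw [Submodule.span_le]
      rintro _ ⟨i, rfl⟩
      have h5 : v i = (v i - w i) + w i := by rw [sub_add_cancel]
      rw [h5]
      exact Submodule.add_mem _ (Submodule.mem_sup_left (hwc i))
        (Submodule.mem_sup_right (Submodule.subset_span ⟨i, rfl⟩))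
    exact hle hn

/-- transport by a group element -/
theorem QF.trans_smul {f : J} {M N N' : Submodule J A} (t : Γ)
    (h : QF f M (M ⊓ N.comap (DistribSMul.toLinearMap J A t)))
    (hN' : ∀ z ∈ N', ∃ m ∈ M, ∃ s ∈ N, z = t • m + s) (hMN : ∀ m ∈ M, t • m ∈ N')
    : QF f N' N := by
  obtain ⟨ι, v, h1, h2, h3⟩ := h
  refine ⟨ι, fun i => t • v i, fun i => hMN _ (h1 i), fun c hc => h2 c ?_, fun b hb => ?_⟩
  · have h4 : Finsupp.linearCombination J (fun i => t • v i) c =
        t • Finsupp.linearCombination J v c := by
      rw [Finsupp.linearCombination_apply, Finsupp.linearCombination_apply, Finsupp.sum,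
        Finsupp.sum, Finset.smul_sum]
      refine Finset.sum_congr rfl fun i _ => ?_
      rw [smul_comm t (c i) (v i)]
    refine ⟨?_, ?_⟩
    · rw [Finsupp.linearCombination_apply]
      exact Submodule.sum_mem _ fun i _ => M.smul_mem _ (h1 i)
    · change t • Finsupp.linearCombination J v c ∈ N
      rw [← h4]
      exact hc
  · obtain ⟨m, hm, s, hs, rfl⟩ := hN' b hb
    obtain ⟨n, hn⟩ := h3 m hm
    refine ⟨n, ?_⟩
    obtain ⟨x, hx, y, hy, hxy⟩ := Submodule.mem_sup.1 hn
    rw [smul_add]
    refine Submodule.add_mem _ ?_ (Submodule.mem_sup_left (N.smul_mem _ hs))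
    rw [← smul_comm t (f ^ n) m, ← hxy, smul_add]
    refine Submodule.add_mem _ (Submodule.mem_sup_left hx.2) (Submodule.mem_sup_right ?_)
    have h5 : Submodule.span J (Set.range v) ≤
        (Submodule.span J (Set.range fun i => t • v i)).comap (DistribSMul.toLinearMap J A t) := by
      rw [Submodule.span_le]
      rintro _ ⟨i, rfl⟩
      exact Submodule.subset_span ⟨i, rfl⟩
    exact h5 hy

/-- ascending unions -/
theorem QF.chain {f : J} (N : ℕ → Submodule J A) (hN : Monotone N)
    (h : ∀ n, QF f (N (n + 1)) (N n)) : QF f (⨆ n, N n) (N 0) := by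
  classical
  choose ι v h1 h2 h3 using h
  let V : (Σ n, ι n) → A := fun x => v x.1 x.2
  have hmemV : ∀ (n : ℕ) (x : Σ n, ι n), x.1 < n → V x ∈ N n := fun n x hx =>
    hN (Nat.succ_le_of_lt hx) (h1 x.1 x.2)
  refine ⟨Σ n, ι n, V, fun x => Submodule.mem_iSup_of_mem (x.1 + 1) (h1 x.1 x.2), ?_, ?_⟩
  · have key : ∀ n : ℕ, ∀ c : (Σ n, ι n) →₀ J, (∀ x ∈ c.support, x.1 < n) →
        Finsupp.linearCombination J V c ∈ N 0 → c = 0 := by
      intro n
      induction n with
      | zero =>
        intro c hc _
        rw [← Finsupp.support_eq_empty, Finset.eq_empty_iff_forall_notMem]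
        exact fun x hx => absurd (hc x hx) (Nat.not_lt_zero _)
      | succ n ih =>
        intro c hc hmem
        have hsplit : c.filter (fun x => x.1 = n) + c.filter (fun x => ¬ x.1 = n) = c :=
          Finsupp.filter_add_filter_not _ _
        have hA : Finsupp.linearCombination J V (c.filter (fun x => ¬ x.1 = n)) ∈ N n := by
          rw [Finsupp.linearCombination_apply]
          refine Submodule.sum_mem _ fun x hx => (N n).smul_mem _ (hmemV n x ?_)
          rw [Finsupp.support_filter, Finset.mem_filter] at hx
          have := hc x hx.1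
          have := hx.2
          omega
        have hB : Finsupp.linearCombination J V (c.filter (fun x => x.1 = n)) ∈ N n := by
          have h4 := hN (Nat.zero_le n) hmem
          rw [← hsplit, map_add] at h4
          have h5 := (N n).sub_mem h4 hA
          rwa [add_sub_cancel_right] at h5
        have hinj : Function.Injective (Sigma.mk n : ι n → Σ n, ι n) := sigma_mk_injective
        have hmd : (c.filter (fun x => x.1 = n)) = Finsupp.mapDomain (Sigma.mk n)
            (Finsupp.comapDomain (Sigma.mk n) (c.filter (fun x => x.1 = n)) hinj.injOn) := by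
          rw [Finsupp.mapDomain_comapDomain _ hinj]
          rintro ⟨m, i⟩ hx
          have hx' : (⟨m, i⟩ : Σ n, ι n) ∈ (c.filter (fun x => x.1 = n)).support := hx
          rw [Finsupp.support_filter, Finset.mem_filter] at hx'
          obtain ⟨-, rfl⟩ := hx'
          exact ⟨i, rfl⟩
        rw [hmd, Finsupp.linearCombination_mapDomain] at hB
        have hz := h2 n _ hB
        rw [hz, Finsupp.mapDomain_zero] at hmd
        apply ih c _ hmem
        intro x hx
        have h6 := hc x hx
        by_contra hcon
        have h7 : x.1 = n := by omega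
        have h8 : c.filter (fun x => x.1 = n) x = c x := Finsupp.filter_apply_pos _ _ h7
        rw [hmd] at h8
        exact (Finsupp.mem_support_iff.1 hx) h8.symm
    intro c hc
    refine key (c.support.sup (fun x => x.1) + 1) c (fun x hx => ?_) hc
    exact Nat.lt_succ_of_le (Finset.le_sup (f := fun x : Σ n, ι n => x.1) hx)
  · have key : ∀ n, ∀ b ∈ N n, ∃ k : ℕ, f ^ k • b ∈ N 0 ⊔ Submodule.span J (Set.range V) := by
      intro n
      induction n with
      | zero => exact fun b hb => ⟨0, Submodule.mem_sup_left (Submodule.smul_mem _ _ hb)⟩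
      | succ n ih =>
        intro b hb
        obtain ⟨k, hk⟩ := h3 n b hb
        obtain ⟨x, hx, y, hy, hxy⟩ := Submodule.mem_sup.1 hk
        obtain ⟨l, hl⟩ := ih x hx
        refine ⟨l + k, ?_⟩
        rw [pow_add, mul_smul, ← hxy, smul_add]
        refine Submodule.add_mem _ hl (Submodule.smul_mem _ _ (Submodule.mem_sup_right ?_))
        refine Submodule.span_mono ?_ hy
        rintro _ ⟨i, rfl⟩
        exact ⟨⟨n, i⟩, rfl⟩
    intro b hb
    obtain ⟨n, hn⟩ := (Submodule.mem_iSup_of_directed _ hN.directed_le).1 hb
    exact key n b hn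

theorem QF.trans {f : J} {B C D : Submodule J A} (hCD : D ≤ C) (hBC : C ≤ B) (h1 : QF f B C)
    (h2 : QF f C D) : QF f B D := by
  classical
  let N : ℕ → Submodule J A := fun n => match n with
    | 0 => D
    | 1 => C
    | _ + 2 => B
  have hN : Monotone N := by
    refine monotone_nat_of_le_succ fun n => ?_
    match n with
    | 0 => exact hCD
    | 1 => exact hBC
    | n + 2 => exact le_rfl
  have hrefl : QF f B B := by
    refine ⟨Empty, Empty.elim, fun i => i.elim, fun c _ => Subsingleton.elim _ _, fun b hb =>
      ⟨0, Submodule.mem_sup_left (Submodule.smul_mem _ _ hb)⟩⟩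
  have h3 : QF f (⨆ n, N n) (N 0) := by
    refine QF.chain N hN fun n => ?_
    match n with
    | 0 => exact h2
    | 1 => exact h1
    | n + 2 => exact hrefl
  have h4 : (⨆ n, N n) = B := by
    apply le_antisymm
    · refine iSup_le fun n => ?_
      match n with
      | 0 => exact hCD.trans hBC
      | 1 => exact hBC
      | n + 2 => exact le_rfl
    · exact le_iSup N 2
  rw [h4] at h3
  exact h3

/-- base case -/
theorem QF.base [IsDomain J] (S : Finset A) (C : Submodule J A) :
    ∃ f : J, f ≠ 0 ∧ QF f (Submodule.span J (S : Set A)) C := by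
  classical
  let good : Finset A → Prop := fun T => T ⊆ S ∧
    ∀ c : T →₀ J, Finsupp.linearCombination J (fun x : T => (x : A)) c ∈ C → c = 0
  have hfin : (S.powerset.filter good).Nonempty := by
    refine ⟨∅, ?_⟩
    rw [Finset.mem_filter, Finset.mem_powerset]
    refine ⟨Finset.empty_subset _, Finset.empty_subset _, fun c _ => ?_⟩
    ext ⟨x, hx⟩
    exact absurd hx (Finset.notMem_empty x)
  obtain ⟨T, hT, hmax⟩ := Finset.exists_max_image _ Finset.card hfin
  rw [Finset.mem_filter] at hT
  obtain ⟨-, hTS, hT⟩ := hT
  have key : ∀ s ∈ S, ∃ r : J, r ≠ 0 ∧ r • s ∈ C ⊔ Submodule.span J (T : Set A) := by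
    intro s hs
    by_cases hsT : s ∈ T
    · exact ⟨1, one_ne_zero, by
        rw [one_smul]; exact Submodule.mem_sup_right (Submodule.subset_span hsT)⟩
    · by_contra hcon
      push Not at hcon
      have hins : good (insert s T) := by
        refine ⟨Finset.insert_subset hs hTS, fun c hc => ?_⟩
        have h1 : Finsupp.linearCombination J (fun x : ↥(insert s T) => (x : A)) c =
            c ⟨s, Finset.mem_insert_self s T⟩ • s +
            ∑ x : T, c ⟨x, Finset.mem_insert_of_mem x.2⟩ • (x : A) := by
          rw [Finsupp.linearCombination_apply, Finsupp.sum_fintype c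
            (fun (i : ↥(insert s T)) (a : J) => a • (i : A)) (fun i => zero_smul J _)]
          rw [Finset.sum_coe_sort_eq_attach, Finset.attach_insert, Finset.sum_insert]
          · rw [Finset.sum_image]
            · rw [Finset.sum_coe_sort_eq_attach]
            · intro x _ y _ hxy
              exact Subtype.ext (congrArg (fun z : ↥(insert s T) => (z : A)) hxy)
          · rw [Finset.mem_image]
            rintro ⟨x, -, hx⟩
            have h9 : (x : A) = s := congrArg (fun z : ↥(insert s T) => (z : A)) hx
            exact hsT (h9 ▸ x.2)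
        have h2 : c ⟨s, Finset.mem_insert_self s T⟩ = 0 := by
          by_contra h0
          apply hcon _ h0
          rw [h1] at hc
          have h3 : (∑ x : T, c ⟨x, Finset.mem_insert_of_mem x.2⟩ • (x : A)) ∈
              Submodule.span J (T : Set A) :=
            Submodule.sum_mem _ fun x _ => Submodule.smul_mem _ _ (Submodule.subset_span x.2)
          have h4 := Submodule.sub_mem (C ⊔ Submodule.span J (T : Set A))
            (Submodule.mem_sup_left hc) (Submodule.mem_sup_right h3)
          rwa [add_sub_cancel_right] at h4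
        rw [h1, h2, zero_smul, zero_add] at hc
        let c' : T →₀ J := Finsupp.equivFunOnFinite.symm
          (fun x => c ⟨x, Finset.mem_insert_of_mem x.2⟩)
        have h5 : c' = 0 := by
          apply hT
          rw [Finsupp.linearCombination_apply, Finsupp.sum_fintype c'
            (fun (i : ↥T) (a : J) => a • (i : A)) (fun i => zero_smul J _)]
          exact hc
        ext ⟨x, hx⟩
        rcases Finset.mem_insert.1 hx with rfl | hx'
        · exact h2
        · exact DFunLike.congr_fun h5 ⟨x, hx'⟩
      have h6 := hmax (insert s T) (Finset.mem_filter.2 ⟨Finset.mem_powerset.2 hins.1, hins⟩)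
      rw [Finset.card_insert_of_notMem hsT] at h6
      omega
  choose! r hr0 hr using key
  refine ⟨∏ s ∈ S, r s, Finset.prod_ne_zero_iff.2 hr0, T, fun x => x,
    fun x => Submodule.subset_span (hTS x.2), hT, fun b hb => ⟨1, ?_⟩⟩
  have hrange : Set.range (fun x : T => (x : A)) = (T : Set A) := Subtype.range_coe
  rw [hrange, pow_one]
  induction hb using Submodule.span_induction with
  | mem s hs =>
    rw [Finset.mem_coe] at hs
    rw [← Finset.mul_prod_erase S r hs, mul_comm, mul_smul]
    exact Submodule.smul_mem _ _ (hr s hs)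
  | zero => rw [smul_zero]; exact Submodule.zero_mem _
  | add x y _ _ hx hy => rw [smul_add]; exact Submodule.add_mem _ hx hy
  | smul a x _ hx => rw [smul_comm]; exact Submodule.smul_mem _ _ hx

end sec

end Pool.Agent.T2h8.FGRF
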