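import Pool.Agent.T2h8.FGRF.GF

/-!
# P. Hall's generic freeness for modules over polycyclic groups: the induction
-/

set_option autoImplicit false
set_option linter.unusedSectionVars false

namespace Pool.Agent.T2h8.FGRF

open Pool.Agent.Helper294.HallC

section sec
variable {J Γ A : Type} [CommRing J] [Group Γ] [AddCommGroup A] [Module J A]
  [DistribMulAction Γ A] [SMulCommClass Γ J A]

/-- stable under the subgroup `R` -/
def StbR (R : Subgroup Γ) (C : Submodule J A) : Prop := ∀ g ∈ R, ∀ x ∈ C, g • x ∈ C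

/-- the two properties carried through the induction -/
def GFP (R : Subgroup Γ) (M : Submodule J A) : Prop :=
  ∀ C : Submodule J A, StbR R C → ∃ f : J, f ≠ 0 ∧ QF f M C

/-- elements of `M` moved into `N` by `t` -/
def pull (t : Γ) (M N : Submodule J A) : Submodule J A :=
  M ⊓ N.comap (DistribSMul.toLinearMap J A t)

theorem mem_pull {t : Γ} {M N : Submodule J A} {m : A} :
    m ∈ pull t M N ↔ m ∈ M ∧ t • m ∈ N := Iff.rfl

theorem gfp_step [IsDomain J] (R P : Subgroup Γ) (t : Γ) (hRP : R ≤ P) (ht : t ∈ P)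
    (hn : ∀ x, x ∈ R ↔ t * x * t⁻¹ ∈ R)
    (hc : ∀ x ∈ P, ∃ k : ℤ, t ^ (-k) * x ∈ R) (M : Submodule J A)
    (hM : StbR R M) (hN : NoeJ R M) (hG : GFP R M) :
    GFP P (Submodule.span J {a : A | ∃ g ∈ P, ∃ x ∈ M, a = g • x}) := by
  intro C hC
  -- the ascending filtration
  let N : ℕ → Submodule J A := fun n => C ⊔ SS t M n
  have hNmono : Monotone N := fun a b hab => sup_le_sup_left (SS_mono t M hab) C
  have hNR : ∀ n, StbR R (N n) := by
    intro n r hr x hx
    obtain ⟨c, hc', s, hs, rfl⟩ := Submodule.mem_sup.1 hx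
    rw [smul_add]
    exact Submodule.add_mem _ (Submodule.mem_sup_left (hC r (hRP hr) c hc'))
      (Submodule.mem_sup_right (SS_R hn hM n r hr s hs))
  have hNt : ∀ n, ∀ x ∈ N n, t • x ∈ N (n + 1) := by
    intro n x hx
    obtain ⟨c, hc', s, hs, rfl⟩ := Submodule.mem_sup.1 hx
    rw [smul_add]
    exact Submodule.add_mem _ (Submodule.mem_sup_left (hC t ht c hc'))
      (Submodule.mem_sup_right (SS_t t M n s hs))
  have hLR : ∀ n, StbR R (pull (t ^ n) M (N n)) := by
    rintro n r hr m ⟨hm, hm2⟩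
    refine ⟨hM r hr m hm, ?_⟩
    have h1 : t ^ n * r * (t ^ n)⁻¹ ∈ R := (conj_iff hn n r).1 hr
    have h2 := hNR n _ h1 _ hm2
    have h3 : (t ^ n * r * (t ^ n)⁻¹) • (t ^ n) • m = (t ^ n) • r • m := by
      rw [← mul_smul, ← mul_smul]
      congr 1
      group
    change (t ^ n) • r • m ∈ N n
    rw [← h3]
    exact h2
  have hLmono : Monotone (fun n => pull (t ^ n) M (N n)) := by
    refine monotone_nat_of_le_succ fun n m hm => ?_
    obtain ⟨hm1, hm2⟩ := hm
    refine ⟨hm1, ?_⟩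
    have := hNt n _ hm2
    change t ^ (n + 1) • m ∈ N (n + 1)
    rw [pow_succ', mul_smul]
    exact this
  obtain ⟨n0, hn0⟩ := hN (fun n => pull (t ^ n) M (N n)) hLmono
    (fun n => ⟨fun x hx => hx.1, hLR n⟩)
  choose f hf0 hf using fun n => hG (pull (t ^ n) M (N n)) (hLR n)
  let F : J := ∏ n ∈ Finset.range (n0 + 1), f n
  have hF0 : F ≠ 0 := Finset.prod_ne_zero_iff.2 fun n _ => hf0 n
  have hFn : ∀ n, QF F M (pull (t ^ n) M (N n)) := by
    intro n
    by_cases hnn : n ≤ n0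
    · exact (hf n).mono (Finset.dvd_prod_of_mem f (Finset.mem_range.2 (by omega)))
    · have h1 : pull (t ^ n) M (N n) = pull (t ^ n0) M (N n0) := hn0 n (by omega)
      rw [h1]
      exact (hf n0).mono (Finset.dvd_prod_of_mem f (Finset.mem_range.2 (by omega)))
  have h1 : QF F (⨆ n, N n) (N 0) := by
    refine QF.chain N hNmono fun n => ?_
    refine QF.trans_smul (M := M) (t ^ n) (hFn n) ?_ ?_
    · intro z hz
      obtain ⟨c, hc', s, hs, rfl⟩ := Submodule.mem_sup.1 hz
      obtain ⟨m, hm, s', hs', rfl⟩ := SS_succ t M n s hs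
      exact ⟨m, hm, c + s', Submodule.add_mem _ (Submodule.mem_sup_left hc')
        (Submodule.mem_sup_right hs'), by abel⟩
    · exact fun m hm => Submodule.mem_sup_right (SS_gen t M (Nat.lt_succ_self n) hm)
  -- the descending part
  set U : Submodule J A := ⨆ n, N n with hU
  have hmemU : ∀ x, x ∈ U ↔ ∃ n, x ∈ N n := fun x =>
    Submodule.mem_iSup_of_directed _ hNmono.directed_le
  have hUR : StbR R U := by
    intro r hr x hx
    obtain ⟨n, hn'⟩ := (hmemU x).1 hx
    exact (hmemU _).2 ⟨n, hNR n r hr x hn'⟩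
  have hUt : ∀ x ∈ U, t • x ∈ U := by
    intro x hx
    obtain ⟨n, hn'⟩ := (hmemU x).1 hx
    exact (hmemU _).2 ⟨n + 1, hNt n x hn'⟩
  have hUM : M ≤ U := by
    intro m hm
    refine (hmemU _).2 ⟨1, Submodule.mem_sup_right ?_⟩
    have := SS_gen t M (show 0 < 1 by omega) hm
    rwa [pow_zero, one_smul] at this
  have hUdec : ∀ x ∈ U, ∃ m ∈ M, ∃ u ∈ U, x = m + t • u := by
    intro x hx
    obtain ⟨n, hn'⟩ := (hmemU x).1 hx
    obtain ⟨c, hc', s, hs, rfl⟩ := Submodule.mem_sup.1 hn'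
    have hs2 : ∃ m ∈ M, ∃ u ∈ U, s = m + t • u := by
      unfold SS at hs
      clear hn' hx
      induction hs using Submodule.span_induction with
      | mem a ha =>
        obtain ⟨i, hi, y, hy, rfl⟩ := ha
        cases i with
        | zero => exact ⟨y, hy, 0, U.zero_mem, by rw [pow_zero, one_smul, smul_zero, add_zero]⟩
        | succ i =>
          refine ⟨0, M.zero_mem, t ^ i • y, (hmemU _).2 ⟨i + 1, Submodule.mem_sup_right
            (SS_gen t M (Nat.lt_succ_self i) hy)⟩, ?_⟩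
          rw [zero_add, ← mul_smul, ← pow_succ']
      | zero => exact ⟨0, M.zero_mem, 0, U.zero_mem, by rw [smul_zero, add_zero]⟩
      | add a b _ _ ha hb =>
        obtain ⟨m1, hm1, u1, hu1, rfl⟩ := ha
        obtain ⟨m2, hm2, u2, hu2, rfl⟩ := hb
        exact ⟨m1 + m2, M.add_mem hm1 hm2, u1 + u2, U.add_mem hu1 hu2, by
          rw [smul_add]; abel⟩
      | smul r a _ ha =>
        obtain ⟨m1, hm1, u1, hu1, rfl⟩ := ha
        exact ⟨r • m1, M.smul_mem r hm1, r • u1, U.smul_mem r hu1, by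
          rw [smul_add, smul_comm t r u1]⟩
    obtain ⟨m, hm, u, hu, rfl⟩ := hs2
    refine ⟨m, hm, t⁻¹ • c + u, U.add_mem ?_ hu, ?_⟩
    · exact (hmemU _).2 ⟨0, Submodule.mem_sup_left (hC _ (P.inv_mem ht) _ hc')⟩
    · rw [smul_add, smul_inv_smul]; abel
  have hL'R : StbR R (pull t⁻¹ M U) := by
    rintro r hr m ⟨hm, hm2⟩
    refine ⟨hM r hr m hm, ?_⟩
    have h1 : t⁻¹ * r * t ∈ R := by
      rw [hn]
      have : t * (t⁻¹ * r * t) * t⁻¹ = r := by group
      rw [this]; exact hr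
    have h2 := hUR _ h1 _ hm2
    have h3 : (t⁻¹ * r * t) • t⁻¹ • m = t⁻¹ • r • m := by
      rw [← mul_smul, ← mul_smul]
      congr 1
      group
    change t⁻¹ • r • m ∈ U
    rw [← h3]
    exact h2
  obtain ⟨f', hf'0, hf'⟩ := hG _ hL'R
  let D : ℕ → Submodule J A := fun k => U.comap (DistribSMul.toLinearMap J A (t ^ k))
  have hmemD : ∀ k x, x ∈ D k ↔ t ^ k • x ∈ U := fun k x => Iff.rfl
  have hDmono : Monotone D := by
    refine monotone_nat_of_le_succ fun k x hx => ?_
    rw [hmemD] at hx ⊢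
    rw [pow_succ', mul_smul]
    exact hUt _ hx
  have h2 : QF f' (⨆ n, D n) (D 0) := by
    refine QF.chain D hDmono fun k => ?_
    refine QF.trans_smul (M := M) ((t ^ (k + 1))⁻¹) ?_ ?_ ?_
    · have h3 : M ⊓ (D k).comap (DistribSMul.toLinearMap J A ((t ^ (k + 1))⁻¹)) =
          pull t⁻¹ M U := by
        ext m
        have h4 : t ^ k • (t ^ (k + 1))⁻¹ • m = t⁻¹ • m := by
          rw [← mul_smul]
          congr 1
          rw [pow_succ']
          group
        constructor
        · rintro ⟨hm, hm2⟩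
          refine ⟨hm, ?_⟩
          change t ^ k • (t ^ (k + 1))⁻¹ • m ∈ U at hm2
          change t⁻¹ • m ∈ U
          rwa [h4] at hm2
        · rintro ⟨hm, hm2⟩
          refine ⟨hm, ?_⟩
          change t⁻¹ • m ∈ U at hm2
          change t ^ k • (t ^ (k + 1))⁻¹ • m ∈ U
          rwa [h4]
      rw [h3]
      exact hf'
    · intro z hz
      rw [hmemD] at hz
      obtain ⟨m, hm, u, hu, hzu⟩ := hUdec _ hz
      refine ⟨m, hm, (t ^ (k + 1))⁻¹ • t • u, ?_, ?_⟩
      · rw [hmemD, ← mul_smul, ← mul_smul]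
        have : t ^ k * (t ^ (k + 1))⁻¹ * t = 1 := by
          rw [pow_succ']; group
        rw [this, one_smul]
        exact hu
      · rw [← smul_add, ← hzu, inv_smul_smul]
    · intro m hm
      rw [hmemD, smul_inv_smul]
      exact hUM hm
  have hD0 : D 0 = U := by
    ext x
    rw [hmemD, pow_zero, one_smul]
  have hN0 : N 0 = C := by
    change C ⊔ SS t M 0 = C
    rw [SS_zero', sup_bot_eq]
  rw [hN0] at h1
  rw [hD0] at h2
  have hCU : C ≤ U := by
    rw [← hN0]
    exact le_iSup N 0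
  have hUD : U ≤ ⨆ n, D n := by
    rw [← hD0]
    exact le_iSup D 0
  have h3 : QF (F * f') (⨆ n, D n) C :=
    QF.trans hCU hUD (h2.mono (dvd_mul_left _ _)) (h1.mono (dvd_mul_right _ _))
  have h4 : (⨆ n, D n) = Submodule.span J {a : A | ∃ g ∈ P, ∃ x ∈ M, a = g • x} ⊔ C := by
    apply le_antisymm
    · refine iSup_le fun k x hx => ?_
      rw [hmemD] at hx
      obtain ⟨n, hn'⟩ := (hmemU _).1 hx
      obtain ⟨c, hc', s, hs, hcs⟩ := Submodule.mem_sup.1 hn'
      have h5 : x = (t ^ k)⁻¹ • s + (t ^ k)⁻¹ • c := by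
        rw [← smul_add, add_comm s c, hcs, inv_smul_smul]
      rw [h5]
      refine Submodule.add_mem _ (Submodule.mem_sup_left ?_) (Submodule.mem_sup_right
        (hC _ (P.inv_mem (P.pow_mem ht k)) _ hc'))
      have h6 : SS t M n ≤ (Submodule.span J {a : A | ∃ g ∈ P, ∃ x ∈ M, a = g • x}).comap
          (DistribSMul.toLinearMap J A ((t ^ k)⁻¹)) := by
        unfold SS
        rw [Submodule.span_le]
        rintro _ ⟨i, _, y, hy, rfl⟩
        refine Submodule.subset_span ⟨(t ^ k)⁻¹ * t ^ i, P.mul_mem (P.inv_mem (P.pow_mem ht k))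
          (P.pow_mem ht i), y, hy, ?_⟩
        rw [mul_smul]
        rfl
      exact h6 hs
    · refine sup_le (fun x hx => ?_) (hCU.trans hUD)
      obtain ⟨K, n, hK⟩ := SS_cover hc hM x hx
      refine Submodule.mem_iSup_of_mem K ?_
      rw [hmemD]
      exact (hmemU _).2 ⟨n, Submodule.mem_sup_right hK⟩
  rw [h4] at h3
  exact ⟨F * f', mul_ne_zero hF0 hf'0, h3.sup⟩

/-- **generic freeness** (P. Hall): a finitely generated `J[Γ]`-module, `Γ` polycyclic, `J` a
Noetherian domain, has a free `J`-submodule with `f`-torsion quotient, for some `f ≠ 0`. -/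
theorem generic_free [IsDomain J] [IsNoetherianRing J] (h : PC Γ) (S : Finset A) :
    NoeJ (⊤ : Subgroup Γ) (Submodule.span J {a : A | ∃ g ∈ (⊤ : Subgroup Γ), ∃ s ∈ (S : Set A),
      a = g • s}) ∧
    ∃ f : J, f ≠ 0 ∧ QF f (Submodule.span J {a : A | ∃ g ∈ (⊤ : Subgroup Γ), ∃ s ∈ (S : Set A),
      a = g • s}) ⊥ := by
  have key : NoeJ (⊤ : Subgroup Γ) (Submodule.span J {a : A | ∃ g ∈ (⊤ : Subgroup Γ),
      ∃ s ∈ (S : Set A), a = g • s}) ∧ GFP (⊤ : Subgroup Γ) (Submodule.span J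
      {a : A | ∃ g ∈ (⊤ : Subgroup Γ), ∃ s ∈ (S : Set A), a = g • s}) := by
    refine poly_ind h (fun R => NoeJ R (Submodule.span J {a : A | ∃ g ∈ R, ∃ s ∈ (S : Set A),
      a = g • s}) ∧ GFP R (Submodule.span J {a : A | ∃ g ∈ R, ∃ s ∈ (S : Set A),
      a = g • s})) ?_ ?_
    · have hset : {a : A | ∃ g ∈ (⊥ : Subgroup Γ), ∃ s ∈ (S : Set A), a = g • s} =
          (S : Set A) := by
        ext a
        constructor
        · rintro ⟨g, hg, s, hs, rfl⟩
          rw [Subgroup.mem_bot.1 hg, one_smul]; exact hs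
        · intro ha
          exact ⟨1, Subgroup.mem_bot.2 rfl, a, ha, (one_smul _ _).symm⟩
      rw [hset]
      exact ⟨noeJ_base S, fun C _ => QF.base S C⟩
    · rintro R P t hRP ht hn hc ⟨hN, hG⟩
      have hst : StbR R (Submodule.span J {a : A | ∃ g ∈ R, ∃ s ∈ (S : Set A), a = g • s}) :=
        span_stable R R le_rfl (S : Set A) _ (fun g hg s hs =>
          Submodule.subset_span ⟨g, hg, s, hs, rfl⟩)
      have h1 := noeJ_step R P t hRP ht hn hc _ hst hN
      have h1' := gfp_step R P t hRP ht hn hc _ hst hN hG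
      have h2 : Submodule.span J {a : A | ∃ g ∈ P, ∃ x ∈
          Submodule.span J {a : A | ∃ g ∈ R, ∃ s ∈ (S : Set A), a = g • s}, a = g • x} =
          Submodule.span J {a : A | ∃ g ∈ P, ∃ s ∈ (S : Set A), a = g • s} := by
        apply le_antisymm
        · rw [Submodule.span_le]
          rintro a ⟨g, hg, x, hx, rfl⟩
          exact span_stable P R hRP (S : Set A)
            (Submodule.span J {a : A | ∃ g ∈ P, ∃ s ∈ (S : Set A), a = g • s}) (fun g hg s hs =>
            Submodule.subset_span ⟨g, hg, s, hs, rfl⟩) g hg x hx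
        · rw [Submodule.span_le]
          rintro a ⟨g, hg, s, hs, rfl⟩
          have hs1 : s ∈ Submodule.span J {a : A | ∃ g ∈ R, ∃ s ∈ (S : Set A), a = g • s} :=
            Submodule.subset_span ⟨1, R.one_mem, s, hs, (one_smul _ _).symm⟩
          exact Submodule.subset_span ⟨g, hg, s, hs1, rfl⟩
      rw [h2] at h1 h1'
      exact ⟨h1, h1'⟩
  exact ⟨key.1, key.2 ⊥ (fun g _ x hx => by
    rw [Submodule.mem_bot] at hx ⊢
    rw [hx, smul_zero])⟩

end sec

end Pool.Agent.T2h8.FGRF
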