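import Pool.Agent.T2h8.FGRF.Hall5
import Pool.Agent.H53R2.SecMod
import Pool.Agent.H53R2.Small

/-!
# Monolithic groups: the centre of a nilpotent normal subgroup is finite
-/

set_option autoImplicit false
set_option linter.unusedSectionVars false
set_option linter.style.haveILetI false

namespace Pool.Agent.T2h8.FGRF

open Pool.Agent.Helper294.HallC Pool.Agent.H53R2
open scoped commutatorElement

/-- `g₀` lies in every nontrivial normal subgroup. -/
def MonoG {G : Type} [Group G] (g₀ : G) : Prop :=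
  g₀ ≠ 1 ∧ ∀ K : Subgroup G, K.Normal → K ≠ ⊥ → g₀ ∈ K

section
variable {G E : Type} [Group G] [AddCommGroup E] [DistribMulAction G E]
  {X Y : Subgroup G} [X.Normal] [Y.Normal]

theorem fgm_of_maxN (h : MaxN G) (s : SecMod (MonoidHom.id G) X Y E) : FGM G E := by
  classical
  obtain ⟨S, hS⟩ := h.normalClosure Y inferInstance
  let f : G → E := fun g => if hg : g ∈ Y then (s.π ⟨g, hg⟩).toAdd else 0
  have hf : ∀ g, g ∈ Y → s.rep g (f g) := by
    intro g hg
    refine ⟨hg, ?_⟩
    simp only [f, dif_pos hg]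
    rfl
  refine ⟨S.image f, ?_⟩
  have hYcl : Y = Subgroup.closure (Group.conjugatesOfSet (S : Set G)) := hS
  have key : ∀ y ∈ Subgroup.closure (Group.conjugatesOfSet (S : Set G)), ∀ e : E, s.rep y e →
      e ∈ AddSubgroup.closure {a : E | ∃ g : G, ∃ t ∈ S.image f, a = g • t} := by
    intro y hy
    induction hy using Subgroup.closure_induction with
    | mem y hy =>
      intro e he
      rw [Group.mem_conjugatesOfSet_iff] at hy
      obtain ⟨t, ht, hty⟩ := hy
      obtain ⟨c, hc⟩ := isConj_iff.1 hty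
      have htY : t ∈ Y := by rw [hS]; exact Subgroup.subset_normalClosure ht
      have h1 := SecMod.rep_conj (hf t htY) c
      rw [hc] at h1
      have h2 := SecMod.rep_unique he h1
      rw [h2]
      exact AddSubgroup.subset_closure ⟨c, f t, Finset.mem_image_of_mem f ht, rfl⟩
    | one =>
      intro e he
      rw [SecMod.rep_unique he s.rep_one]
      exact zero_mem _
    | mul a b ha hb iha ihb =>
      intro e he
      rw [← hYcl] at ha hb
      rw [SecMod.rep_unique he (SecMod.rep_mul (hf a ha) (hf b hb))]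
      exact add_mem (iha _ (hf a ha)) (ihb _ (hf b hb))
    | inv a ha iha =>
      intro e he
      rw [← hYcl] at ha
      rw [SecMod.rep_unique he (SecMod.rep_inv (hf a ha))]
      exact neg_mem (iha _ (hf a ha))
  rw [eq_top_iff]
  intro e _
  obtain ⟨g, hg⟩ := s.exists_rep e
  refine key g ?_ e hg
  rw [← hYcl]
  exact hg.1

theorem mono_of_monoG {g₀ : G} (hg₀ : MonoG g₀) (s : SecMod (MonoidHom.id G) ⊥ Y E) (hY : Y ≠ ⊥) :
    ∃ e : E, Mono G e := by
  have hgY : g₀ ∈ Y := hg₀.2 Y inferInstance hY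
  refine ⟨(s.π ⟨g₀, hgY⟩).toAdd, ?_, ?_⟩
  · intro h0
    have h1 : s.π ⟨g₀, hgY⟩ = 1 := by
      rw [← ofAdd_toAdd (s.π ⟨g₀, hgY⟩), h0]
      rfl
    exact hg₀.1 (Subgroup.mem_bot.1 ((s.ker _).1 h1))
  · intro B hB hB0
    let K : Subgroup G :=
      { carrier := {g | ∃ e ∈ B, s.rep g e}
        one_mem' := ⟨0, B.zero_mem, s.rep_one⟩
        mul_mem' := by
          rintro a b ⟨e, he, h1⟩ ⟨f, hf, h2⟩
          exact ⟨e + f, B.add_mem he hf, SecMod.rep_mul h1 h2⟩
        inv_mem' := by
          rintro a ⟨e, he, h1⟩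
          exact ⟨-e, B.neg_mem he, SecMod.rep_inv h1⟩ }
    have hK : K.Normal := by
      refine ⟨?_⟩
      rintro a ⟨e, he, h1⟩ g
      exact ⟨g • e, hB g e he, SecMod.rep_conj h1 g⟩
    have hK0 : K ≠ ⊥ := by
      intro h0
      apply hB0
      rw [eq_bot_iff]
      intro e he
      obtain ⟨g, hg⟩ := s.exists_rep e
      have h1 : g ∈ K := ⟨e, he, hg⟩
      rw [h0, Subgroup.mem_bot] at h1
      subst h1
      rw [SecMod.rep_unique hg s.rep_one]
      exact zero_mem _
    obtain ⟨e, he, hge, h1⟩ := hg₀.2 K hK hK0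
    have : (s.π ⟨g₀, hgY⟩).toAdd = e := by
      rw [h1]
      rfl
    rw [this]
    exact he

end

/-- the centre of `N` -/
abbrev ctr {G : Type} [Group G] (N : Subgroup G) : Subgroup G :=
  N ⊓ Subgroup.centralizer (N : Set G)

theorem ctr_ne_bot {G : Type} [Group G] {N : Subgroup G} {c : ℕ} (hc : Lw N c N = ⊥)
    (hN : N ≠ ⊥) : ctr N ≠ ⊥ := by
  classical
  obtain ⟨k, hk⟩ : ∃ k, Lw N k N ≠ ⊥ ∧ Lw N (k + 1) N = ⊥ := by
    have hex : ∃ k, Lw N k N = ⊥ := ⟨c, hc⟩
    have h1 := Nat.find_spec hex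
    have h2 : Nat.find hex ≠ 0 := by
      intro h0
      rw [h0, Lw_zero] at h1
      exact hN h1
    obtain ⟨k, hk⟩ := Nat.exists_eq_succ_of_ne_zero h2
    refine ⟨k, Nat.find_min hex (by omega), ?_⟩
    rw [hk] at h1
    exact h1
  have hle : ∀ k, Lw N k N ≤ N := by
    intro k
    induction k with
    | zero => exact le_rfl
    | succ k ih =>
      rw [Lw_succ]
      refine Subgroup.commutator_le.2 fun a ha b hb => ?_
      exact N.mul_mem (N.mul_mem (N.mul_mem (ih ha) hb) (N.inv_mem (ih ha))) (N.inv_mem hb)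
  intro h0
  apply hk.1
  rw [← le_bot_iff, ← h0]
  refine le_inf (hle k) fun x hx => ?_
  rw [Subgroup.mem_centralizer_iff_commutator_eq_one']
  intro y hy
  have h1 : ⁅x, y⁆ ∈ Lw N (k + 1) N := by
    rw [Lw_succ]
    exact Subgroup.commutator_mem_commutator hx hy
  rw [hk.2, Subgroup.mem_bot] at h1
  exact h1

/-- The centre of a nilpotent normal subgroup with nilpotent-by-finite quotient is finite. -/
theorem center_finite {G : Type} [Group G] [Group.FG G] (hmax : MaxN G) {g₀ : G} (hg₀ : MonoG g₀)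
    (N : Subgroup G) [N.Normal] (H : Subgroup G) [H.Normal] [H.FiniteIndex] (m : ℕ)
    (hH : Lw H m H ≤ N) (c : ℕ) (hc : Lw N c N = ⊥) : Finite ↥(ctr N) := by
  by_cases hN : N = ⊥
  · subst hN
    have : ctr (⊥ : Subgroup G) = ⊥ := by rw [ctr, bot_inf_eq]
    rw [this]
    infer_instance
  have hZ0 := ctr_ne_bot hc hN
  obtain ⟨E, _, _, ⟨s⟩⟩ := exists_secMod (MonoidHom.id G) Function.surjective_id ⊥ (ctr N)
    (by
      rw [Subgroup.commutator_le]
      intro a ha b hb
      rw [Subgroup.mem_bot]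
      exact (Subgroup.mem_centralizer_iff_commutator_eq_one'.1 ha.2) b hb.1)
    (by
      have : (MonoidHom.id G).ker = ⊥ := by
        rw [eq_bot_iff]
        intro x hx
        exact hx
      rw [this, Subgroup.commutator_bot_right])
  obtain ⟨e, he⟩ := mono_of_monoG hg₀ s hZ0
  have hact : ∀ g ∈ Lw H m H, ∀ a : E, g • a = a := by
    intro g hg a
    obtain ⟨y, hy⟩ := s.exists_rep a
    have h1 := SecMod.rep_conj hy g
    have h2 : g * y * g⁻¹ = y := by
      have := (Subgroup.mem_centralizer_iff.1 hy.1.2) g (hH hg)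
      rw [this]
      group
    rw [h2] at h1
    exact (SecMod.rep_unique hy h1).symm
  have hfin : Finite E := hall_virt H m hact (fgm_of_maxN hmax s) e he
  haveI : Finite (Multiplicative E) := hfin
  refine Finite.of_injective s.π ?_
  rw [injective_iff_map_eq_one]
  intro y hy
  exact Subtype.ext (Subgroup.mem_bot.1 ((s.ker y).1 hy))

end Pool.Agent.T2h8.FGRF
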