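import Pool.Agent.T2h8.FGRF.Hall2

/-!
# Operators killed by polynomials that do not vanish modulo any prime
-/

set_option autoImplicit false
set_option linter.unusedSectionVars false
set_option linter.style.haveILetI false

namespace Pool.Agent.T2h8.FGRF

open Polynomial

theorem exists_monic_prime (p : ℕ) (hp : p.Prime) (q : ℤ[X])
    (hq : q.map (Int.castRingHom (ZMod p)) ≠ 0) :
    ∃ g : ℤ[X], g.Monic ∧ ∃ a b : ℤ[X], g = C (p : ℤ) * a + q * b := by
  haveI : Fact p.Prime := ⟨hp⟩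
  set f := Int.castRingHom (ZMod p) with hf
  have hlc : (q.map f).leadingCoeff ≠ 0 := leadingCoeff_ne_zero.2 hq
  obtain ⟨v, hv⟩ := ZMod.ringHom_surjective f ((q.map f).leadingCoeff)⁻¹
  have hm : (C ((q.map f).leadingCoeff)⁻¹ * q.map f).Monic := by
    rw [Monic, leadingCoeff_mul, leadingCoeff_C, inv_mul_cancel₀ hlc]
  have hlift : (C ((q.map f).leadingCoeff)⁻¹ * q.map f) ∈ lifts f := by
    rw [mem_lifts]
    exact ⟨C v * q, by rw [Polynomial.map_mul, map_C, hv]⟩
  obtain ⟨g, hg, -, hgm⟩ := lifts_and_natDegree_eq_and_monic hlift hm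
  have h1 : C (p : ℤ) ∣ g - C v * q := by
    rw [C_dvd_iff_dvd_coeff]
    intro i
    have h2 : (g - C v * q).map f = 0 := by
      rw [Polynomial.map_sub, hg, Polynomial.map_mul, map_C, hv, sub_self]
    have h3 := congrArg (fun r => r.coeff i) h2
    simp only [coeff_map, coeff_zero] at h3
    exact (ZMod.intCast_zmod_eq_zero_iff_dvd _ p).1 h3
  obtain ⟨a, ha⟩ := h1
  refine ⟨g, hgm, a, C v, ?_⟩
  rw [← ha]
  ring

theorem exists_monic (N : ℕ) (hN : N ≠ 0) (q : ℤ[X])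
    (hq : ∀ p : ℕ, p.Prime → q.map (Int.castRingHom (ZMod p)) ≠ 0) :
    ∃ g : ℤ[X], g.Monic ∧ ∃ a b : ℤ[X], g = C (N : ℤ) * a + q * b := by
  induction N using Nat.recOnMul with
  | zero => exact absurd rfl hN
  | one => exact ⟨1, monic_one, 1, 0, by simp⟩
  | prime p hp => exact exists_monic_prime p hp q (hq p hp)
  | mul x y hx hy =>
    have hx0 : x ≠ 0 := fun h => hN (by rw [h, zero_mul])
    have hy0 : y ≠ 0 := fun h => hN (by rw [h, mul_zero])
    obtain ⟨g, hg, a, b, hab⟩ := hx hx0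
    obtain ⟨h, hh, c, d, hcd⟩ := hy hy0
    refine ⟨g * h, hg.mul hh, a * c, C (x : ℤ) * a * d + b * C (y : ℤ) * c + q * b * d, ?_⟩
    rw [hab, hcd]
    push_cast
    rw [C_mul]
    ring

theorem fin_order2 {A : Type} [AddCommGroup A] (N : ℕ) [NeZero N] [Module (ZMod N)[X] A]
    (q : ℤ[X]) (hq : ∀ p : ℕ, p.Prime → q.map (Int.castRingHom (ZMod p)) ≠ 0)
    (hqA : ∀ a : A, (q.map (Int.castRingHom (ZMod N))) • a = 0) :
    ∃ i j : ℕ, i < j ∧ ∀ a : A, (X ^ i : (ZMod N)[X]) • a = (X ^ j : (ZMod N)[X]) • a := by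
  obtain ⟨g, hg, a, b, hab⟩ := exists_monic N (NeZero.ne N) q hq
  refine fin_order N (g.map (Int.castRingHom (ZMod N))) (hg.map _) fun x => ?_
  have h1 : g.map (Int.castRingHom (ZMod N)) = q.map (Int.castRingHom (ZMod N)) *
      b.map (Int.castRingHom (ZMod N)) := by
    rw [hab, Polynomial.map_add, Polynomial.map_mul, Polynomial.map_mul, map_C]
    have : (Int.castRingHom (ZMod N)) (N : ℤ) = 0 := by simp
    rw [this, C_0, zero_mul, zero_add]
  rw [h1, mul_comm, mul_smul, hqA, smul_zero]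

end Pool.Agent.T2h8.FGRF
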