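import Pool.Agent.T2h8.FGRF.Grp1
import Pool.Agent.T2h8.FGRF.Monic

/-!
# Monolithic groups: the second centre
-/

set_option autoImplicit false
set_option linter.unusedSectionVars false
set_option linter.style.haveILetI false

namespace Pool.Agent.T2h8.FGRF

open Pool.Agent.Helper294.HallC Pool.Agent.H53R2 Polynomial
open scoped commutatorElement

theorem lift_mem {ι G : Type} [Group G] (K : Subgroup G) (f : ι → G) (hf : ∀ i, f i ∈ K)
    (w : FreeGroup ι) : FreeGroup.lift f w ∈ K := by
  have h : w ∈ Subgroup.closure (Set.range (FreeGroup.of : ι → FreeGroup ι)) := by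
    rw [FreeGroup.closure_range_of]; trivial
  induction h using Subgroup.closure_induction with
  | mem x hx =>
    obtain ⟨i, rfl⟩ := hx
    rw [FreeGroup.lift_apply_of]
    exact hf i
  | one => rw [map_one]; exact K.one_mem
  | mul a b _ _ ha hb => rw [map_mul]; exact K.mul_mem ha hb
  | inv a _ ha => rw [map_inv]; exact K.inv_mem ha

theorem list_prod_congr {G : Type} [Group G] {n : ℕ} (f g : Fin n → G) (h : ∀ i, f i = g i) :
    (List.ofFn f).prod = (List.ofFn g).prod := by
  have : f = g := funext h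
  rw [this]

/-- the homomorphism `y ↦ [b, y]` -/
def brk {G : Type} [Group G] (N : Subgroup G) (b : G)
    (hb : ∀ y ∈ N, ⁅b, y⁆ ∈ Subgroup.centralizer (N : Set G)) : ↥N →* G where
  toFun y := ⁅b, (y : G)⁆
  map_one' := by simp
  map_mul' := by
    intro x y
    have h1 := Subgroup.mem_centralizer_iff.1 (hb y y.2) x x.2
    have h2 : ⁅b, ((x * y : ↥N) : G)⁆ = ⁅b, (x : G)⁆ * ((x : G) * ⁅b, (y : G)⁆ * (x : G)⁻¹) := by
      rw [Subgroup.coe_mul, commutatorElement_def, commutatorElement_def, commutatorElement_def]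
      group
    rw [h2, h1]
    group

theorem centralizer_fin {G : Type} [Group G] (Z : Subgroup G) [Z.Normal] [Finite ↥Z] :
    (Subgroup.centralizer (Z : Set G)).FiniteIndex := by
  have h1 : ((MulAut.conjNormal : G →* MulAut ↥Z)).ker.FiniteIndex := by
    haveI : Finite (MulAut ↥Z) := inferInstance
    exact Subgroup.finiteIndex_ker _
  refine Subgroup.finiteIndex_of_le (H := ((MulAut.conjNormal : G →* MulAut ↥Z)).ker) ?_
  intro g hg
  rw [Subgroup.mem_centralizer_iff]
  intro z hz
  have h2 : (MulAut.conjNormal g : MulAut ↥Z) ⟨z, hz⟩ = ⟨z, hz⟩ := by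
    rw [MonoidHom.mem_ker.1 hg]; rfl
  have h3 := congrArg Subtype.val h2
  rw [MulAut.conjNormal_apply] at h3
  change g * z * g⁻¹ = z at h3
  nth_rewrite 1 [← h3]
  group

/-- nonnegative form of the polynomial of the universal identity -/
noncomputable def upoly (u : UI) : ℤ[X] :=
  X ^ (∑ k, (u.i k).natAbs) - ∑ k, C (u.e k) * X ^ ((∑ j, ((u.i j).natAbs : ℤ)) + u.i k).toNat

theorem upoly_exp (u : UI) (k : Fin u.n) :
    ((((∑ j, ((u.i j).natAbs : ℤ)) + u.i k).toNat : ℕ) : ℤ) =
      (∑ j, ((u.i j).natAbs : ℤ)) + u.i k := by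
  apply Int.toNat_of_nonneg
  have h1 : ((u.i k).natAbs : ℤ) ≤ ∑ j, ((u.i j).natAbs : ℤ) :=
    Finset.single_le_sum (f := fun j => ((u.i j).natAbs : ℤ)) (fun j _ => by positivity)
      (Finset.mem_univ k)
  have h2 : -((u.i k).natAbs : ℤ) ≤ u.i k := by omega
  omega

theorem upoly_ne (u : UI) (p : ℕ) (hp : p.Prime) :
    (upoly u).map (Int.castRingHom (ZMod p)) ≠ 0 := by
  haveI : Fact p.Prime := ⟨hp⟩
  intro h0
  have h1 := congrArg (fun q => q.coeff (∑ k, (u.i k).natAbs)) h0
  simp only [coeff_map, coeff_zero] at h1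
  have h2 : (upoly u).coeff (∑ k, (u.i k).natAbs) = 1 := by
    rw [upoly, coeff_sub, coeff_X_pow_self, finsetSum_coeff]
    rw [Finset.sum_eq_zero, sub_zero]
    intro k _
    rw [coeff_C_mul_X_pow, if_neg]
    intro h3
    have h4 := upoly_exp u k
    rw [← h3] at h4
    have h5 := u.hi k
    push_cast at h4
    omega
  rw [h2] at h1
  simp at h1

end Pool.Agent.T2h8.FGRF
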