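import Pool.Agent.T2h8.FGRF.Grp2

/-!
# Monolithic groups: the universal identity bounds the second centre
-/

set_option autoImplicit false
set_option linter.unusedSectionVars false
set_option linter.style.haveILetI false

namespace Pool.Agent.T2h8.FGRF

open Pool.Agent.Helper294.HallC Pool.Agent.H53R2 Polynomial
open scoped commutatorElement

/-- Let `N` be a normal subgroup with finite centre and nilpotent-by-finite quotient, `X ≤ N`
normal with `[X, N]` central in `N`. The universal identity implies that the centraliser of `X`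
in `N` has finite index in `N`. -/
theorem section_finite {G : Type} [Group G] [Group.FG G] (hmax : MaxN G) (u : UI) (hu : u.Grp G)
    (N : Subgroup G) [N.Normal] (H : Subgroup G) [H.Normal] [H.FiniteIndex] (m : ℕ)
    (hH : Lw H m H ≤ N) (X' : Subgroup G) [X'.Normal] (hXN : X' ≤ N)
    (hX : ⁅X', N⁆ ≤ ctr N) (hfin : Finite ↥(ctr N)) :
    (N ⊓ Subgroup.centralizer (X' : Set G)).relIndex N ≠ 0 := by
  set N₁ : Subgroup G := N ⊓ Subgroup.centralizer (X' : Set G) with hN₁
  have hbr : ∀ b ∈ X', ∀ y ∈ N, ⁅b, y⁆ ∈ Subgroup.centralizer (N : Set G) := fun b hb y hy =>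
    (hX (Subgroup.commutator_mem_commutator hb hy)).2
  have hbrZ : ∀ b ∈ X', ∀ y ∈ N, ⁅b, y⁆ ∈ ctr N := fun b hb y hy =>
    hX (Subgroup.commutator_mem_commutator hb hy)
  have hmem : ∀ y : ↥N, (∀ b (hb : b ∈ X'), brk N b (hbr b hb) y = 1) → (y : G) ∈ N₁ := by
    intro y hy
    have h0 : (y : G) ∈ Subgroup.centralizer (X' : Set G) := by
      rw [Subgroup.mem_centralizer_iff_commutator_eq_one]
      intro b hb
      exact hy b hb
    exact ⟨y.2, h0⟩
  have hNN : ⁅N, N⁆ ≤ N₁ := by
    rw [Subgroup.commutator_le]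
    intro a ha b hb
    have h1 : ((⁅(⟨a, ha⟩ : ↥N), (⟨b, hb⟩ : ↥N)⁆ : ↥N) : G) ∈ N₁ := by
      apply hmem
      intro x hx
      rw [map_commutatorElement, commutatorElement_eq_one_iff_mul_comm]
      exact ((Subgroup.mem_centralizer_iff.1 (hbr x hx a ha)) _ (hbrZ x hx b hb).1).symm
    exact h1
  obtain ⟨E, _, _, ⟨s⟩⟩ := exists_secMod (MonoidHom.id G) Function.surjective_id N₁ N hNN
    (by
      have : (MonoidHom.id G).ker = ⊥ := by
        rw [eq_bot_iff]
        intro x hx
        exact hx
      rw [this, Subgroup.commutator_bot_right]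
      exact bot_le)
  -- exponent
  set e₀ : ℕ := Nat.card ↥(ctr N) with he₀
  have he₀pos : 0 < e₀ := Nat.card_pos
  have hexp : ∀ z ∈ ctr N, z ^ e₀ = 1 := by
    intro z hz
    have := pow_card_eq_one' (x := (⟨z, hz⟩ : ↥(ctr N)))
    exact congrArg Subtype.val this
  have hzero : ∀ (y : G) (e : E), s.rep y e → y ∈ N₁ → e = 0 := by
    intro y e he hy
    obtain ⟨hyN, h1⟩ := he
    have h2 : s.π ⟨y, hyN⟩ = 1 := (s.ker _).2 hy
    rw [h2] at h1
    exact (congrArg Multiplicative.toAdd h1).symm
  have hexpE : ∀ e : E, e₀ • e = 0 := by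
    intro e
    obtain ⟨y, hy⟩ := s.exists_rep e
    have h1 := SecMod.rep_zpow hy (e₀ : ℤ)
    rw [natCast_zsmul, zpow_natCast] at h1
    refine hzero _ _ h1 ?_
    have h2 : (((⟨y, hy.1⟩ : ↥N) ^ e₀ : ↥N) : G) ∈ N₁ := by
      apply hmem
      intro b hb
      rw [map_pow]
      exact hexp _ (hbrZ b hb y hy.1)
    exact h2
  -- the subgroup centralising the centre
  haveI : (Subgroup.centralizer (ctr N : Set G)).FiniteIndex := centralizer_fin (ctr N)
  set H₀ : Subgroup G := H ⊓ Subgroup.centralizer (ctr N : Set G) with hH₀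
  have hH₀N : Lw H₀ m H₀ ≤ N := (Lw_mono inf_le_left inf_le_left m).trans hH
  have hact : ∀ g ∈ N, ∀ a : E, g • a = a := by
    intro g hg a
    obtain ⟨y, hy⟩ := s.exists_rep a
    have h1 := SecMod.rep_comm hy g
    have h2 := hzero _ _ h1 (hNN (Subgroup.commutator_mem_commutator hy.1 hg))
    rw [sub_eq_zero] at h2
    exact h2.symm
  -- the recurrence
  have hrec : ∀ t ∈ Subgroup.centralizer (ctr N : Set G), ∀ e : E,
      e = ∑ k, u.e k • (t ^ (u.i k) • e) := by
    intro t ht e
    obtain ⟨y, hy⟩ := s.exists_rep e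
    have h1 : s.rep (List.ofFn fun k : Fin u.n =>
        (t ^ (u.i k) * y * t ^ (-(u.i k))) ^ (u.e k)).prod (∑ k, u.e k • (t ^ (u.i k) • e)) := by
      refine SecMod.rep_prod _ _ fun k => SecMod.rep_zpow ?_ _
      have := SecMod.rep_conj hy (t ^ (u.i k))
      rw [← zpow_neg] at this
      exact this
    set y' : G := (List.ofFn fun k : Fin u.n =>
        (t ^ (u.i k) * y * t ^ (-(u.i k))) ^ (u.e k)).prod with hy'
    have h2 := SecMod.rep_mul hy (SecMod.rep_inv h1)
    have h3 : y * y'⁻¹ ∈ N₁ := by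
      have h4 : (((⟨y, hy.1⟩ : ↥N) * (⟨y', h1.1⟩ : ↥N)⁻¹ : ↥N) : G) ∈ N₁ := by
        apply hmem
        intro b hb
        rw [map_mul, map_inv, mul_inv_eq_one]
        have hcN : ∀ k : Fin u.n, t ^ (u.i k) * y * t ^ (-(u.i k)) ∈ N := by
          intro k
          have := (inferInstance : N.Normal).conj_mem y hy.1 (t ^ (u.i k))
          rwa [← zpow_neg] at this
        have h5 : (⟨y', h1.1⟩ : ↥N) = (List.ofFn fun k : Fin u.n =>
            (⟨_, hcN k⟩ : ↥N) ^ (u.e k)).prod := by
          apply Subtype.ext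
          rw [← Subgroup.subtype_apply, ← Subgroup.subtype_apply, map_list_prod, List.map_ofFn]
          exact hy'
        rw [h5, map_list_prod, List.map_ofFn]
        change ⁅b, y⁆ = _
        rw [hu b y t]
        refine list_prod_congr _ _ fun k => ?_
        have h6 : FreeGroup.lift ![b, y, t] (u.w k) ∈
            Subgroup.centralizer (ctr N : Set G) := by
          apply lift_mem
          have hNC : N ≤ Subgroup.centralizer (ctr N : Set G) := by
            intro x hx
            rw [Subgroup.mem_centralizer_iff]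
            intro z hz
            exact (Subgroup.mem_centralizer_iff.1 hz.2 x hx).symm
          intro i
          fin_cases i
          · exact hNC (hXN hb)
          · exact hNC hy.1
          · exact ht
        have h7 : ⁅b, t ^ (u.i k) * y * t ^ (-(u.i k))⁆ ^ (u.e k) ∈ ctr N :=
          Subgroup.zpow_mem _ (hbrZ b hb _ (hcN k)) _
        have h8 := Subgroup.mem_centralizer_iff.1 h6 _ h7
        rw [Function.comp_apply, map_zpow]
        change FreeGroup.lift ![b, y, t] (u.w k) * ⁅b, t ^ (u.i k) * y * t ^ (-(u.i k))⁆ ^ (u.e k) *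
          (FreeGroup.lift ![b, y, t] (u.w k))⁻¹ =
          ⁅b, t ^ (u.i k) * y * t ^ (-(u.i k))⁆ ^ (u.e k)
        rw [← h8]
        group
      exact h4
    have h9 := hzero _ _ h2 h3
    rw [← sub_eq_add_neg, sub_eq_zero] at h9
    exact h9
  -- finite orders
  haveI : NeZero e₀ := ⟨he₀pos.ne'⟩
  have hord : ∀ t ∈ H₀, ∃ n : ℕ, 0 < n ∧ ∀ a : E, t ^ n • a = a := by
    intro t ht
    obtain ⟨inst, hXt⟩ := exists_polyMod e₀ hexpE (DistribSMul.toAddMonoidHom E t)
    have hXn : ∀ (n : ℕ) (a : E), (X ^ n : (ZMod e₀)[X]) • a = t ^ n • a := by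
      intro n
      induction n with
      | zero => intro a; rw [pow_zero, pow_zero, one_smul, one_smul]
      | succ n ih =>
        intro a
        rw [pow_succ', mul_smul, ih, hXt, pow_succ', mul_smul]
        rfl
    obtain ⟨i, j, hij, hq⟩ := fin_order2 (A := E) e₀ (upoly u) (upoly_ne u) (by
      intro a
      rw [upoly, Polynomial.map_sub, Polynomial.map_pow, map_X, Polynomial.map_sum, sub_smul,
        Finset.sum_smul, hXn, sub_eq_zero]
      have h1 : ∀ k : Fin u.n, (Polynomial.map (Int.castRingHom (ZMod e₀))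
          (C (u.e k) * X ^ ((∑ j, ((u.i j).natAbs : ℤ)) + u.i k).toNat)) • a =
          t ^ (∑ k, (u.i k).natAbs) • (u.e k • (t ^ (u.i k) • a)) := by
        intro k
        rw [Polynomial.map_mul, Polynomial.map_pow, map_X, map_C, mul_smul, hXn]
        have h2 : (C ((Int.castRingHom (ZMod e₀)) (u.e k)) : (ZMod e₀)[X]) =
            ((u.e k : ℤ) : (ZMod e₀)[X]) := by
          rw [eq_intCast, C_eq_intCast]
        rw [h2, Int.cast_smul_eq_zsmul]
        have h3 : t ^ ((∑ j, ((u.i j).natAbs : ℤ)) + u.i k).toNat =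
            t ^ (∑ k, (u.i k).natAbs) * t ^ (u.i k) := by
          rw [← zpow_natCast, upoly_exp, zpow_add, ← zpow_natCast]
          push_cast
          rfl
        rw [h3, mul_smul]
        exact (map_zsmul (DistribSMul.toAddMonoidHom E (t ^ (∑ k, (u.i k).natAbs))) (u.e k)
          (t ^ (u.i k) • a)).symm
      rw [Finset.sum_congr rfl fun k _ => h1 k, ← Finset.smul_sum, ← hrec t ht.2 a])
    refine ⟨j - i, by omega, fun a => ?_⟩
    have h5 := hq a
    rw [hXn, hXn] at h5
    have h6 : t ^ j = t ^ i * t ^ (j - i) := by rw [← pow_add]; congr 1; omega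
    rw [h6, mul_smul] at h5
    exact (smul_left_cancel _ h5).symm
  have hfinE : Finite E := fin_virt H₀ m (fun g hg => hact g (hH₀N hg)) hord
    (fgm_of_maxN hmax s) e₀ he₀pos hexpE
  haveI : Finite (Multiplicative E) := hfinE
  have hker : N₁.subgroupOf N = s.π.ker := by
    ext y
    rw [Subgroup.mem_subgroupOf, MonoidHom.mem_ker, s.ker]
  have h10 : s.π.ker.FiniteIndex := Subgroup.finiteIndex_ker _
  rw [Subgroup.relIndex, hker]
  exact h10.index_ne_zero

end Pool.Agent.T2h8.FGRF
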