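import Pool.Agent.T2h8.FGRF.GFStep

/-!
# Monolithic modules over polycyclic groups: primes, Fitting's lemma
-/

set_option autoImplicit false
set_option linter.unusedSectionVars false

namespace Pool.Agent.T2h8.FGRF

open Pool.Agent.Helper294.HallC

/-- `e` lies in every nonzero `Γ`-stable subgroup. -/
def Mono (Γ : Type) {E : Type} [Group Γ] [AddCommGroup E] [DistribMulAction Γ E] (e : E) : Prop :=
  e ≠ 0 ∧ ∀ B : AddSubgroup E, Stb Γ B → B ≠ ⊥ → e ∈ B

/-- kernel of an iterate -/
def kerIt {E : Type} [AddCommGroup E] (θ : E →+ E) (n : ℕ) : AddSubgroup E where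
  carrier := {a | θ^[n] a = 0}
  zero_mem' := iterate_map_zero θ n
  add_mem' := by
    intro a b ha hb
    change θ^[n] (a + b) = 0
    rw [iterate_map_add θ n, show θ^[n] a = 0 from ha, show θ^[n] b = 0 from hb, add_zero]
  neg_mem' := by
    intro a ha
    change θ^[n] (-a) = 0
    rw [iterate_map_neg θ n, show θ^[n] a = 0 from ha, neg_zero]

/-- range of an iterate -/
def ranIt {E : Type} [AddCommGroup E] (θ : E →+ E) (n : ℕ) : AddSubgroup E where
  carrier := {b | ∃ a, θ^[n] a = b}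
  zero_mem' := ⟨0, iterate_map_zero θ n⟩
  add_mem' := by
    rintro _ _ ⟨a, rfl⟩ ⟨b, rfl⟩
    exact ⟨a + b, iterate_map_add θ n a b⟩
  neg_mem' := by
    rintro _ ⟨a, rfl⟩
    exact ⟨-a, iterate_map_neg θ n a⟩

/-- Fitting's lemma for monolithic Noetherian modules -/
theorem fitting {Γ E : Type} [Group Γ] [AddCommGroup E] [DistribMulAction Γ E] (hN : Noe Γ E)
    {e : E} (he : Mono Γ e) (θ : E →+ E) (hθ : ∀ (g : Γ) (a : E), θ (g • a) = g • θ a)
    (x : E) (hx0 : x ≠ 0) (hx : θ x = 0) : ∃ n : ℕ, ∀ a : E, θ^[n] a = 0 := by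
  have hθn : ∀ (n : ℕ) (g : Γ) (a : E), θ^[n] (g • a) = g • θ^[n] a := by
    intro n g
    induction n with
    | zero => intro a; rfl
    | succ n ih =>
      intro a
      rw [Function.iterate_succ_apply', Function.iterate_succ_apply', ih, hθ]
  have hstk : ∀ n, Stb Γ (kerIt θ n) := by
    intro n g a ha
    change θ^[n] (g • a) = 0
    rw [hθn n g a, show θ^[n] a = 0 from ha, smul_zero]
  have hstr : ∀ n, Stb Γ (ranIt θ n) := by
    rintro n g _ ⟨a, rfl⟩
    exact ⟨g • a, hθn n g a⟩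
  have hek : θ e = 0 := by
    have h1 : e ∈ kerIt θ 1 := by
      refine he.2 _ (hstk 1) ?_
      intro h0
      apply hx0
      have : x ∈ kerIt θ 1 := hx
      rw [h0] at this
      exact this
    exact h1
  obtain ⟨n, hn⟩ := hN (fun n => kerIt θ n) (by
    refine monotone_nat_of_le_succ fun n a ha => ?_
    have ha' : θ^[n] a = 0 := ha
    change θ^[n + 1] a = 0
    rw [Function.iterate_succ_apply', ha', map_zero]) hstk
  refine ⟨n, fun a => ?_⟩
  by_contra hne
  have hr : ranIt θ n ≠ ⊥ := by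
    intro h0
    have : θ^[n] a ∈ ranIt θ n := ⟨a, rfl⟩
    rw [h0] at this
    exact hne this
  obtain ⟨y, hy⟩ := he.2 _ (hstr n) hr
  have h3 : y ∈ kerIt θ (n + 1) := by
    change θ^[n + 1] y = 0
    rw [Function.iterate_succ_apply', hy, hek]
  have h5 : kerIt θ (n + 1) = kerIt θ n := hn (n + 1) (Nat.le_succ n)
  rw [h5] at h3
  have h4 : θ^[n] y = 0 := h3
  exact he.1 (by rw [← hy, h4])

/-- a cyclic module over a polycyclic group cannot be torsion-free and divisible -/
theorem no_div {J Γ A : Type} [CommRing J] [IsDomain J] [IsNoetherianRing J] [Group Γ]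
    [AddCommGroup A] [Module J A] [DistribMulAction Γ A] [SMulCommClass Γ J A] (h : PC Γ)
    (hinf : ∀ f : J, f ≠ 0 → ∃ π : J, Prime π ∧ ¬ π ∣ f) (e : A) (he : e ≠ 0)
    (htf : ∀ r : J, r ≠ 0 → ∀ a : A, r • a = 0 → a = 0)
    (hdiv : ∀ π : J, Prime π → ∀ x ∈ Submodule.span J {a : A | ∃ g : Γ, a = g • e},
      ∃ y ∈ Submodule.span J {a : A | ∃ g : Γ, a = g • e}, x = π • y) : False := by
  classical
  obtain ⟨-, f, hf, hQ⟩ := generic_free (J := J) h ({e} : Finset A)
  have hset : {a : A | ∃ g ∈ (⊤ : Subgroup Γ), ∃ s ∈ (({e} : Finset A) : Set A), a = g • s} =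
      {a : A | ∃ g : Γ, a = g • e} := by
    ext a
    simp
  rw [hset] at hQ
  obtain ⟨ι, v, h1, h2, h3⟩ := hQ
  have heM : e ∈ Submodule.span J {a : A | ∃ g : Γ, a = g • e} :=
    Submodule.subset_span ⟨1, (one_smul _ _).symm⟩
  by_cases hι : Nonempty ι
  · obtain ⟨i⟩ := hι
    obtain ⟨π, hπ, hπf⟩ := hinf f hf
    obtain ⟨y, hy, hvy⟩ := hdiv π hπ (v i) (h1 i)
    obtain ⟨n, hn⟩ := h3 y hy
    rw [bot_sup_eq, Finsupp.mem_span_range_iff_exists_finsupp] at hn
    obtain ⟨c, hc⟩ := hn
    have h4 : Finsupp.linearCombination J v (Finsupp.single i (f ^ n) - π • c) ∈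
        (⊥ : Submodule J A) := by
      rw [Submodule.mem_bot, map_sub, map_smul, Finsupp.linearCombination_single,
        Finsupp.linearCombination_apply, hc, hvy, smul_comm, sub_self]
    have h5 := h2 _ h4
    have h6 : f ^ n = π * c i := by
      have := DFunLike.congr_fun h5 i
      rw [Finsupp.sub_apply, Finsupp.single_eq_same, Finsupp.smul_apply, Finsupp.zero_apply,
        sub_eq_zero, smul_eq_mul] at this
      exact this
    exact hπf (hπ.dvd_of_dvd_pow ⟨c i, h6⟩)
  · rw [not_nonempty_iff] at hι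
    obtain ⟨n, hn⟩ := h3 e heM
    rw [Set.range_eq_empty, Submodule.span_empty, bot_sup_eq, Submodule.mem_bot] at hn
    exact he (htf _ (pow_ne_zero n hf) e hn)

/-- in a monolithic module over a polycyclic group some prime of `J` has a nonzero kernel -/
theorem exists_prime_ker {J Γ A : Type} [CommRing J] [IsDomain J] [IsPrincipalIdealRing J]
    [Group Γ]
    [AddCommGroup A] [Module J A] [DistribMulAction Γ A] [SMulCommClass Γ J A] (h : PC Γ)
    (hinf : ∀ f : J, f ≠ 0 → ∃ π : J, Prime π ∧ ¬ π ∣ f) (e : A) (he : Mono Γ e) :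
    ∃ π : J, Prime π ∧ ∃ x : A, x ≠ 0 ∧ π • x = 0 := by
  classical
  by_contra hcon
  push Not at hcon
  have htf : ∀ r : J, r ≠ 0 → ∀ a : A, r • a = 0 → a = 0 := by
    intro r hr
    induction r using UniqueFactorizationMonoid.induction_on_prime with
    | h₁ => exact absurd rfl hr
    | h₂ u hu =>
      intro a ha
      obtain ⟨u, rfl⟩ := hu
      have := congrArg (fun x => (↑u⁻¹ : J) • x) ha
      simp only [← mul_smul, smul_zero, Units.inv_mul, one_smul] at this
      exact this
    | h₃ s π hs hπ ih =>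
      intro a ha
      rw [mul_smul] at ha
      have h1 : s • a = 0 := by
        by_contra h0
        exact hcon π hπ _ h0 ha
      exact ih hs a h1
  refine no_div h hinf e he.1 htf ?_
  intro π hπ
  set M := Submodule.span J {a : A | ∃ g : Γ, a = g • e} with hM
  have heM : e ∈ M := Submodule.subset_span ⟨1, (one_smul _ _).symm⟩
  have hMst : ∀ (g : Γ), ∀ x ∈ M, g • x ∈ M := by
    intro g x hx
    rw [hM] at hx
    induction hx using Submodule.span_induction with
    | mem x hx =>
      obtain ⟨g', rfl⟩ := hx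
      exact Submodule.subset_span ⟨g * g', by rw [mul_smul]⟩
    | zero => rw [smul_zero]; exact M.zero_mem
    | add x y _ _ hx hy => rw [smul_add]; exact M.add_mem hx hy
    | smul r x _ hx => rw [smul_comm]; exact M.smul_mem r hx
  let B : Submodule J A :=
    { carrier := {x | ∃ y ∈ M, x = π • y}
      zero_mem' := ⟨0, M.zero_mem, by rw [smul_zero]⟩
      add_mem' := by
        rintro _ _ ⟨y, hy, rfl⟩ ⟨z, hz, rfl⟩
        exact ⟨y + z, M.add_mem hy hz, by rw [smul_add]⟩
      smul_mem' := by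
        rintro r _ ⟨y, hy, rfl⟩
        exact ⟨r • y, M.smul_mem r hy, by rw [smul_comm]⟩ }
  have hBst : Stb Γ B.toAddSubgroup := by
    rintro g _ ⟨y, hy, rfl⟩
    exact ⟨g • y, hMst g y hy, by rw [smul_comm]⟩
  have hB0 : B.toAddSubgroup ≠ ⊥ := by
    intro h0
    have h1 : π • e ∈ B.toAddSubgroup := ⟨e, heM, rfl⟩
    rw [h0] at h1
    exact he.1 (htf π hπ.ne_zero e h1)
  have heB : e ∈ B := he.2 _ hBst hB0
  have hle : M ≤ B := by
    rw [hM, Submodule.span_le]
    rintro _ ⟨g, rfl⟩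
    exact hBst g e heB
  intro x hx
  exact hle hx

end Pool.Agent.T2h8.FGRF
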