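import Pool.Agent.T2h8.FGRF.Hall1
import Pool.Agent.Helper294.HallC.NoeOfFg

/-!
# Monolithic modules over polycyclic groups: central elements have finite order
-/

set_option autoImplicit false
set_option linter.unusedSectionVars false
set_option linter.style.haveILetI false

namespace Pool.Agent.T2h8.FGRF

open Pool.Agent.Helper294.HallC Polynomial

theorem hinf_int (f : ℤ) (hf : f ≠ 0) : ∃ π : ℤ, Prime π ∧ ¬ π ∣ f := by
  obtain ⟨p, hp, hpp⟩ := Nat.exists_infinite_primes (f.natAbs + 1)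
  refine ⟨p, Nat.prime_iff_prime_int.1 hpp, fun h => ?_⟩
  have h1 := Int.natAbs_dvd_natAbs.2 h
  have h2 := Nat.le_of_dvd (Int.natAbs_pos.2 hf) h1
  rw [Int.natAbs_natCast] at h2
  omega

theorem hinf_poly (p : ℕ) [Fact p.Prime] (f : (ZMod p)[X]) (hf : f ≠ 0) :
    ∃ π : (ZMod p)[X], Prime π ∧ ¬ π ∣ f := by
  have h1 : ¬ IsUnit (X * f + 1 : (ZMod p)[X]) := by
    intro h
    have h2 := Polynomial.natDegree_eq_zero_of_isUnit h
    have h3 : (X * f + 1 : (ZMod p)[X]).natDegree = f.natDegree + 1 := by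
      rw [← C_1, natDegree_add_C, natDegree_X_mul hf]
    omega
  have h0 : (X * f + 1 : (ZMod p)[X]) ≠ 0 := by
    intro h
    have h3 : (X * f + 1 : (ZMod p)[X]).natDegree = f.natDegree + 1 := by
      rw [← C_1, natDegree_add_C, natDegree_X_mul hf]
    rw [h, natDegree_zero] at h3
    omega
  obtain ⟨π, hπ, hdvd⟩ := WfDvdMonoid.exists_irreducible_factor h1 h0
  refine ⟨π, hπ.prime, fun h => ?_⟩
  have h4 : π ∣ 1 := (dvd_add_right (h.mul_left X)).1 hdvd
  exact hπ.not_isUnit (isUnit_of_dvd_one h4)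

theorem smn {Γ A : Type} [Group Γ] [AddCommGroup A] [DistribMulAction Γ A] (g : Γ) (n : ℕ)
    (a : A) : g • (n • a) = n • (g • a) :=
  map_nsmul (DistribSMul.toAddMonoidHom A g) n a

theorem exists_prime_pow {Γ E : Type} [Group Γ] [AddCommGroup E] [DistribMulAction Γ E]
    (h : PC Γ) (hN : Noe Γ E) (e : E) (he : Mono Γ e) :
    ∃ p : ℕ, p.Prime ∧ p • e = 0 ∧ ∃ m : ℕ, ∀ a : E, p ^ m • a = 0 := by
  obtain ⟨π, hπ, x, hx0, hx⟩ := exists_prime_ker (J := ℤ) h hinf_int e he
  have hp : π.natAbs.Prime := Int.prime_iff_natAbs_prime.1 hπ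
  have hx' : π.natAbs • x = 0 := by
    rcases Int.natAbs_eq π with h1 | h1
    · rw [h1] at hx
      rwa [natCast_zsmul] at hx
    · rw [h1, neg_smul, neg_eq_zero] at hx
      rwa [natCast_zsmul] at hx
  have hst : Stb Γ (kerIt (nsmulAddMonoidHom (α := E) π.natAbs) 1) := by
    intro g a ha
    have ha' : π.natAbs • a = 0 := ha
    change π.natAbs • (g • a) = 0
    rw [← smn g, ha', smul_zero]
  obtain ⟨m, hm⟩ := fitting hN he (nsmulAddMonoidHom π.natAbs)
    (fun g a => (smn g π.natAbs a).symm) x hx0 hx'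
  have hpe : e ∈ kerIt (nsmulAddMonoidHom (α := E) π.natAbs) 1 := by
    refine he.2 _ hst fun h0 => hx0 ?_
    have : x ∈ kerIt (nsmulAddMonoidHom (α := E) π.natAbs) 1 := hx'
    rwa [h0] at this
  refine ⟨π.natAbs, hp, hpe, m, fun a => ?_⟩
  have h2 : ∀ n : ℕ, (nsmulAddMonoidHom (α := E) π.natAbs)^[n] a = π.natAbs ^ n • a := by
    intro n
    induction n with
    | zero => rw [pow_zero, one_smul]; rfl
    | succ n ih =>
      rw [Function.iterate_succ_apply', ih, pow_succ', mul_smul]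
      rfl
  rw [← h2]
  exact hm a

theorem exists_polyMod' {R A : Type} [CommRing R] [AddCommGroup A] [Module R A]
    (θ : A →ₗ[R] A) : ∃ _ : Module R[X] A, ∀ a : A, (X : R[X]) • a = θ a := by
  refine ⟨Module.compHom A ((aeval θ : R[X] →ₐ[R] Module.End R A).toRingHom), fun a => ?_⟩
  change ((aeval θ : R[X] →ₐ[R] Module.End R A) X) a = θ a
  rw [aeval_X]

theorem exists_polyMod {A : Type} [AddCommGroup A] (N : ℕ) (hN : ∀ a : A, N • a = 0)
    (θ : A →+ A) : ∃ _ : Module (ZMod N)[X] A, ∀ a : A, (X : (ZMod N)[X]) • a = θ a := by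
  letI inst1 : Module (ZMod N) A := AddCommGroup.zmodModule hN
  exact exists_polyMod' (θ.toZModLinearMap N)

theorem polyMod_comm {Γ A : Type} [Group Γ] [AddCommGroup A] [DistribMulAction Γ A] (N : ℕ)
    [NeZero N] [Module (ZMod N)[X] A]
    (h : ∀ (g : Γ) (a : A), g • (X : (ZMod N)[X]) • a = (X : (ZMod N)[X]) • g • a) :
    SMulCommClass Γ (ZMod N)[X] A := by
  refine ⟨fun g q a => ?_⟩
  have hX : ∀ (n : ℕ) (a : A), g • (X ^ n : (ZMod N)[X]) • a = (X ^ n : (ZMod N)[X]) • g • a := by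
    intro n
    induction n with
    | zero => intro a; rw [pow_zero, one_smul, one_smul]
    | succ n ih =>
      intro a
      rw [pow_succ', mul_smul, mul_smul, h, ih]
  have hC : ∀ (r : ZMod N) (a : A), g • (C r : (ZMod N)[X]) • a = (C r : (ZMod N)[X]) • g • a := by
    intro r a
    have h1 : (C r : (ZMod N)[X]) = ((r.val : ℕ) : (ZMod N)[X]) := by
      rw [← C_eq_natCast, ZMod.natCast_zmod_val]
    rw [h1, Nat.cast_smul_eq_nsmul, Nat.cast_smul_eq_nsmul, smn]
  induction q using Polynomial.induction_on' with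
  | add p q hp hq => rw [add_smul, add_smul, smul_add, hp, hq]
  | monomial n r =>
    rw [← C_mul_X_pow_eq_monomial, mul_smul, mul_smul, hC, hX]

/-- pigeonhole for an operator killed by a monic polynomial over `ZMod N` -/
theorem fin_order {A : Type} [AddCommGroup A] (N : ℕ) [NeZero N] [Module (ZMod N)[X] A]
    (q : (ZMod N)[X]) (hq : q.Monic) (hqA : ∀ a : A, q • a = 0) :
    ∃ i j : ℕ, i < j ∧ ∀ a : A, (X ^ i : (ZMod N)[X]) • a = (X ^ j : (ZMod N)[X]) • a := by
  haveI : Module.Finite (ZMod N) (AdjoinRoot q) := (AdjoinRoot.powerBasis' hq).finite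
  haveI : Finite (AdjoinRoot q) := Module.finite_of_finite (ZMod N)
  obtain ⟨i, j, hij, h⟩ := Finite.exists_ne_map_eq_of_infinite
    (fun n : ℕ => (AdjoinRoot.mk q (X ^ n) : AdjoinRoot q))
  have key : ∀ i j : ℕ, AdjoinRoot.mk q (X ^ i) = AdjoinRoot.mk q (X ^ j) → ∀ a : A,
      (X ^ i : (ZMod N)[X]) • a = (X ^ j : (ZMod N)[X]) • a := by
    intro i j h a
    rw [AdjoinRoot.mk_eq_mk] at h
    obtain ⟨r, hr⟩ := h
    have h1 : ((X ^ i - X ^ j : (ZMod N)[X])) • a = 0 := by
      rw [hr, mul_comm, mul_smul, hqA, smul_zero]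
    rw [sub_smul, sub_eq_zero] at h1
    exact h1
  rcases lt_or_gt_of_ne hij with h1 | h1
  · exact ⟨i, j, h1, key i j h⟩
  · exact ⟨j, i, h1, key j i h.symm⟩

theorem central_p {Γ A : Type} [Group Γ] [AddCommGroup A] [DistribMulAction Γ A]
    (h : PC Γ) (hN : Noe Γ A) (e : A) (he : Mono Γ e) (p : ℕ) (hp : p.Prime)
    (hpA : ∀ a : A, p • a = 0) (z : Γ) (hz : ∀ (g : Γ) (a : A), g • z • a = z • g • a) :
    ∃ k : ℕ, 0 < k ∧ ∀ a : A, z ^ k • a = a := by
  haveI : Fact p.Prime := ⟨hp⟩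
  obtain ⟨inst, hX⟩ := exists_polyMod p hpA (DistribSMul.toAddMonoidHom A z)
  haveI hcomm : SMulCommClass Γ (ZMod p)[X] A := by
    refine polyMod_comm p fun g a => ?_
    rw [hX, hX]
    exact hz g a
  obtain ⟨π, hπ, x, hx0, hx⟩ := exists_prime_ker (J := (ZMod p)[X]) h (hinf_poly p) e he
  obtain ⟨n, hn⟩ := fitting hN he (DistribSMul.toAddMonoidHom A (π : (ZMod p)[X]))
    (fun g a => (smul_comm g π a).symm) x hx0 (show π • x = 0 from hx)
  have h2 : ∀ (n : ℕ) (a : A), (DistribSMul.toAddMonoidHom A π)^[n] a = π ^ n • a := by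
    intro n a
    induction n with
    | zero => rw [pow_zero, one_smul]; rfl
    | succ n ih =>
      rw [Function.iterate_succ_apply', ih, pow_succ', mul_smul]
      rfl
  have h3 : ∀ a : A, π ^ n • a = 0 := fun a => by rw [← h2]; exact hn a
  have hne : (π ^ n : (ZMod p)[X]) ≠ 0 := pow_ne_zero n hπ.ne_zero
  obtain ⟨i, j, hij, hq⟩ := fin_order (A := A) p (normalize (π ^ n)) (monic_normalize hne) (by
    intro a
    obtain ⟨r, hr⟩ := (normalize_associated (π ^ n : (ZMod p)[X])).symm.dvd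
    rw [hr, mul_comm, mul_smul, h3, smul_zero])
  have hXn : ∀ (n : ℕ) (a : A), (X ^ n : (ZMod p)[X]) • a = z ^ n • a := by
    intro n
    induction n with
    | zero => intro a; rw [pow_zero, pow_zero, one_smul, one_smul]
    | succ n ih =>
      intro a
      rw [pow_succ', mul_smul, ih, hX, pow_succ', mul_smul]
      rfl
  refine ⟨j - i, by omega, fun a => ?_⟩
  have h5 := hq a
  rw [hXn, hXn] at h5
  have h6 : z ^ j = z ^ i * z ^ (j - i) := by rw [← pow_add]; congr 1; omega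
  rw [h6, mul_smul] at h5
  exact (smul_left_cancel _ h5).symm

end Pool.Agent.T2h8.FGRF
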