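import Pool.Agent.T2h8.FGRF.Hall2
import Pool.Agent.H53R2.FinNil

/-!
# P. Hall: finitely generated monolithic modules over finitely generated nilpotent groups are finite
-/

set_option autoImplicit false
set_option linter.unusedSectionVars false
set_option linter.style.haveILetI false

namespace Pool.Agent.T2h8.FGRF

open Pool.Agent.Helper294.HallC Polynomial

/-- the action on a stable subgroup -/
abbrev subAct {Γ E : Type} [Group Γ] [AddCommGroup E] [DistribMulAction Γ E] (B : AddSubgroup E)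
    (hB : Stb Γ B) : DistribMulAction Γ ↥B where
  smul g b := ⟨g • (b : E), hB g b b.2⟩
  one_smul b := Subtype.ext (one_smul Γ (b : E))
  mul_smul g h b := Subtype.ext (mul_smul g h (b : E))
  smul_zero g := Subtype.ext (smul_zero g)
  smul_add g a b := Subtype.ext (smul_add g (a : E) (b : E))

theorem central_order {Γ E : Type} [Group Γ] [AddCommGroup E] [DistribMulAction Γ E]
    (h : PC Γ) (hN : Noe Γ E) (e : E) (he : Mono Γ e)
    (z : Γ) (hz : ∀ (g : Γ) (a : E), g • z • a = z • g • a) :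
    ∃ k : ℕ, 0 < k ∧ ∀ a : E, z ^ k • a = a := by
  obtain ⟨p, hp, hpe, m, hm⟩ := exists_prime_pow h hN e he
  -- the elements of order `p`
  let B : AddSubgroup E := kerIt (nsmulAddMonoidHom (α := E) p) 1
  have hmemB : ∀ a, a ∈ B ↔ p • a = 0 := fun a => Iff.rfl
  have hB : Stb Γ B := by
    intro g a ha
    rw [hmemB] at ha ⊢
    rw [← smn g, ha, smul_zero]
  letI := subAct B hB
  have hsm : ∀ (g : Γ) (b : ↥B), ((g • b : ↥B) : E) = g • (b : E) := fun _ _ => rfl
  have hNB : Noe Γ ↥B := by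
    intro f hf hst
    obtain ⟨n, hn⟩ := hN (fun n => (f n).map B.subtype)
      (fun i j hij => AddSubgroup.map_mono (hf hij)) (by
        rintro n g _ ⟨b, hb, rfl⟩
        exact ⟨g • b, hst n g b hb, rfl⟩)
    exact ⟨n, fun m hm => AddSubgroup.map_injective B.subtype_injective (hn m hm)⟩
  have heB : Mono Γ (⟨e, hpe⟩ : ↥B) := by
    refine ⟨fun h0 => he.1 (congrArg Subtype.val h0), fun C hC hC0 => ?_⟩
    have h1 := he.2 (C.map B.subtype) (by
      rintro g _ ⟨b, hb, rfl⟩
      exact ⟨g • b, hC g b hb, rfl⟩) (by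
      intro h0
      apply hC0
      rw [AddSubgroup.map_eq_bot_iff_of_injective C B.subtype_injective] at h0
      exact h0)
    obtain ⟨b, hb, hbe⟩ := h1
    have : b = ⟨e, hpe⟩ := Subtype.ext hbe
    rw [← this]
    exact hb
  obtain ⟨k, hk, hkz⟩ := central_p h hNB ⟨e, hpe⟩ heB p hp (fun a => Subtype.ext a.2) z
    (fun g a => Subtype.ext (hz g a))
  have hke : z ^ k • e = e := congrArg Subtype.val (hkz ⟨e, hpe⟩)
  -- `z ^ k - 1` is nilpotent
  let θ : E →+ E := DistribSMul.toAddMonoidHom E (z ^ k) - AddMonoidHom.id E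
  have hθa : ∀ a, θ a = z ^ k • a - a := fun a => rfl
  have hzk : ∀ (n : ℕ) (g : Γ) (a : E), g • z ^ n • a = z ^ n • g • a := by
    intro n g
    induction n with
    | zero => intro a; rw [pow_zero, one_smul, one_smul]
    | succ n ih => intro a; rw [pow_succ', mul_smul, mul_smul, hz, ih]
  obtain ⟨n, hn⟩ := fitting hN he θ (by
    intro g a
    rw [hθa, hθa, smul_sub, hzk]) e he.1 (by rw [hθa, hke, sub_self])
  haveI : NeZero (p ^ m) := ⟨pow_ne_zero m hp.ne_zero⟩
  obtain ⟨inst, hX⟩ := exists_polyMod (p ^ m) hm (DistribSMul.toAddMonoidHom E z)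
  have hXn : ∀ (n : ℕ) (a : E), (X ^ n : (ZMod (p ^ m))[X]) • a = z ^ n • a := by
    intro n
    induction n with
    | zero => intro a; rw [pow_zero, pow_zero, one_smul, one_smul]
    | succ n ih =>
      intro a
      rw [pow_succ', mul_smul, ih, hX, pow_succ', mul_smul]
      rfl
  have hq1 : ∀ a : E, (X ^ k - C 1 : (ZMod (p ^ m))[X]) • a = θ a := by
    intro a
    rw [sub_smul, hXn, C_1, one_smul, hθa]
  have hqn : ∀ (n : ℕ) (a : E), ((X ^ k - C 1) ^ n : (ZMod (p ^ m))[X]) • a = θ^[n] a := by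
    intro n
    induction n with
    | zero => intro a; rw [pow_zero, one_smul]; rfl
    | succ n ih =>
      intro a
      rw [pow_succ', mul_smul, ih, hq1, Function.iterate_succ_apply']
  obtain ⟨i, j, hij, hq⟩ := fin_order (A := E) (p ^ m) ((X ^ k - C 1) ^ n)
    ((monic_X_pow_sub_C 1 hk.ne').pow n) (fun a => by rw [hqn]; exact hn a)
  refine ⟨j - i, by omega, fun a => ?_⟩
  have h5 := hq a
  rw [hXn, hXn] at h5
  have h6 : z ^ j = z ^ i * z ^ (j - i) := by rw [← pow_add]; congr 1; omega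
  rw [h6, mul_smul] at h5
  exact (smul_left_cancel _ h5).symm

theorem pc_of_nil (Q : Type) [Group Q] [Group.FG Q] [Group.IsNilpotent Q] : PC Q :=
  ⟨(inferInstance : Group.IsSolvable Q), H53R2.nil_maxC Q⟩

/-- a group acting through a finite group -/
theorem fin_of_fin {Q E : Type} [Group Q] [Finite Q] [AddCommGroup E] [DistribMulAction Q E]
    (hE : FGM Q E) (N : ℕ) (hN0 : 0 < N) (hN : ∀ a : E, N • a = 0) : Finite E := by
  obtain ⟨S, hS⟩ := hE
  have hfin : {a : E | ∃ g : Q, ∃ s ∈ S, a = g • s}.Finite := by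
    have : {a : E | ∃ g : Q, ∃ s ∈ S, a = g • s} =
        ⋃ g : Q, (fun s => g • s) '' (S : Set E) := by
      ext a
      simp only [Set.mem_ofPred_eq, Set.mem_iUnion, Set.mem_image, Finset.mem_coe]
      constructor
      · rintro ⟨g, s, hs, rfl⟩
        exact ⟨g, s, hs, rfl⟩
      · rintro ⟨g, s, hs, rfl⟩
        exact ⟨g, s, hs, rfl⟩
    rw [this]
    exact Set.finite_iUnion fun g => S.finite_toSet.image _
  haveI : AddGroup.FG E := AddGroup.fg_iff.2 ⟨_, hS, hfin⟩
  have htors : IsAddTorsion E := fun a => isOfFinAddOrder_iff_nsmul_eq_zero.2 ⟨N, hN0, hN a⟩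
  exact AddCommGroup.finite_of_fg_isAddTorsion E htors

/-- P. Hall: over a finitely generated nilpotent group, finitely generated monolithic modules are
finite (faithful version). -/
theorem mono_finite' {Q E : Type} [Group Q] [AddCommGroup E] [DistribMulAction Q E] [Group.FG Q]
    [Group.IsNilpotent Q] (hfaith : ∀ q : Q, (∀ a : E, q • a = a) → q = 1) (hE : FGM Q E) (e : E)
    (he : Mono Q e) : Finite E := by
  have hPC := pc_of_nil Q
  have hN : Noe Q E := noe_of_fg hPC hE
  have hord : ∀ z : Q, z ∈ Subgroup.center Q → ∃ k : ℕ, 0 < k ∧ z ^ k = 1 := by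
    intro z hz
    obtain ⟨k, hk, hkz⟩ := central_order hPC hN e he z (by
      intro g a
      rw [← mul_smul, ← mul_smul, (Subgroup.mem_center_iff.1 hz g)])
    exact ⟨k, hk, hfaith _ hkz⟩
  -- bounded exponent of the centre
  have hcfg : (Subgroup.center Q).FG := H53R2.nil_maxC Q _
  obtain ⟨n, hn0, hn⟩ : ∃ n : ℕ, 0 < n ∧ ∀ z ∈ Subgroup.center Q, z ^ n = 1 := by
    haveI : Group.FG ↥(Subgroup.center Q) := (Group.fg_iff_subgroup_fg _).2 hcfg
    letI cg : CommGroup ↥(Subgroup.center Q) :=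
      { (inferInstance : Group ↥(Subgroup.center Q)) with
        mul_comm := fun a b => Subtype.ext ((Subgroup.mem_center_iff.1 b.2) a) }
    have htors : IsMulTorsion ↥(Subgroup.center Q) := by
      intro z
      obtain ⟨k, hk, hkz⟩ := hord z z.2
      exact isOfFinOrder_iff_pow_eq_one.2 ⟨k, hk, Subtype.ext hkz⟩
    haveI : Finite ↥(Subgroup.center Q) := CommGroup.finite_of_fg_isMulTorsion _ htors
    refine ⟨Nat.card ↥(Subgroup.center Q), Nat.card_pos, fun z hz => ?_⟩
    have := pow_card_eq_one' (x := (⟨z, hz⟩ : ↥(Subgroup.center Q)))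
    exact congrArg Subtype.val this
  haveI : Finite Q := H53R2.fin_nil Q n hn0 hn
  obtain ⟨p, hp, -, m, hm⟩ := exists_prime_pow hPC hN e he
  exact fin_of_fin hE (p ^ m) (pow_pos hp.pos m) hm

end Pool.Agent.T2h8.FGRF
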