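import Pool.Agent.T2h8.FGRF.Hall3

/-!
# P. Hall: modules over nilpotent-by-finite groups
-/

set_option autoImplicit false
set_option linter.unusedSectionVars false
set_option linter.style.haveILetI false

namespace Pool.Agent.T2h8.FGRF

open Pool.Agent.Helper294.HallC

/-- the action on the quotient by a stable subgroup -/
abbrev quoAct {Γ E : Type} [Group Γ] [AddCommGroup E] [DistribMulAction Γ E] (B : AddSubgroup E)
    (hB : Stb Γ B) : DistribMulAction Γ (E ⧸ B) where
  smul g := QuotientAddGroup.map B B (DistribSMul.toAddMonoidHom E g) (fun b hb => hB g b hb)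
  one_smul b := by
    obtain ⟨b, rfl⟩ := QuotientAddGroup.mk_surjective b
    exact congrArg (QuotientAddGroup.mk (s := B)) (one_smul Γ b)
  mul_smul g h b := by
    obtain ⟨b, rfl⟩ := QuotientAddGroup.mk_surjective b
    exact congrArg (QuotientAddGroup.mk (s := B)) (mul_smul g h b)
  smul_zero g := map_zero (QuotientAddGroup.map B B (DistribSMul.toAddMonoidHom E g)
    (fun b hb => hB g b hb))
  smul_add g a b := map_add (QuotientAddGroup.map B B (DistribSMul.toAddMonoidHom E g)
    (fun b hb => hB g b hb)) a b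

/-- the image of `Q` in the automorphism group of `E` -/
def Img (Q E : Type) [Group Q] [AddCommGroup E] [DistribMulAction Q E] : Type :=
  ↥(DistribMulAction.toAddAut Q E).range

section img
variable {Q E : Type} [Group Q] [AddCommGroup E] [DistribMulAction Q E]

instance : Group (Img Q E) := inferInstanceAs (Group ↥(DistribMulAction.toAddAut Q E).range)

instance : DistribMulAction (Img Q E) E where
  smul q a := (Multiplicative.toAdd q.1) a
  one_smul _ := rfl
  mul_smul _ _ _ := rfl
  smul_zero q := map_zero (Multiplicative.toAdd q.1)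
  smul_add q a b := map_add (Multiplicative.toAdd q.1) a b

/-- the projection onto the image -/
def toImg (Q E : Type) [Group Q] [AddCommGroup E] [DistribMulAction Q E] : Q →* Img Q E :=
  (DistribMulAction.toAddAut Q E).rangeRestrict

theorem toImg_surj : Function.Surjective (toImg Q E) :=
  (DistribMulAction.toAddAut Q E).rangeRestrict_surjective

theorem toImg_smul (q : Q) (a : E) : toImg Q E q • a = q • a := rfl

theorem img_faithful (q : Img Q E) (hq : ∀ a : E, q • a = a) : q = 1 := by
  apply Subtype.ext
  apply Multiplicative.toAdd.injective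
  ext a
  exact hq a

theorem img_stb (B : AddSubgroup E) : Stb (Img Q E) B ↔ Stb Q B := by
  constructor
  · intro h q x hx
    exact h (toImg Q E q) x hx
  · intro h q x hx
    obtain ⟨q, rfl⟩ := toImg_surj q
    exact h q x hx

theorem img_fgm (h : FGM Q E) : FGM (Img Q E) E := by
  obtain ⟨S, hS⟩ := h
  refine ⟨S, ?_⟩
  rw [← hS]
  congr 1
  ext a
  constructor
  · rintro ⟨q, s, hs, rfl⟩
    obtain ⟨q, rfl⟩ := toImg_surj q
    exact ⟨q, s, hs, rfl⟩
  · rintro ⟨q, s, hs, rfl⟩
    exact ⟨toImg Q E q, s, hs, rfl⟩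

end img

theorem mono_finite {Q E : Type} [Group Q] [AddCommGroup E] [DistribMulAction Q E] [Group.FG Q]
    [Group.IsNilpotent Q] (hE : FGM Q E) (e : E) (he : Mono Q e) : Finite E := by
  haveI : Group.FG (Img Q E) := Group.fg_of_surjective toImg_surj
  haveI : Group.IsNilpotent (Img Q E) := Group.nilpotent_of_surjective _ toImg_surj
  exact mono_finite' img_faithful (img_fgm hE) e
    ⟨he.1, fun B hB => he.2 B ((img_stb B).1 hB)⟩

/-- P. Hall: finitely generated modules over finitely generated nilpotent groups are residually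
finite. -/
theorem hall_rf {Q E : Type} [Group Q] [AddCommGroup E] [DistribMulAction Q E] [Group.FG Q]
    [Group.IsNilpotent Q] (hE : FGM Q E) (e : E) (he : e ≠ 0) :
    ∃ B : AddSubgroup E, Stb Q B ∧ B.FiniteIndex ∧ e ∉ B := by
  have hN : Noe Q E := noe_of_fg (pc_of_nil Q) hE
  have hwf : WellFoundedGT {B : AddSubgroup E // Stb Q B} := by
    rw [wellFoundedGT_iff_monotone_chain_condition]
    intro a
    obtain ⟨n, hn⟩ := hN (fun n => (a n).1) (fun i j hij => a.monotone hij) (fun n => (a n).2)
    exact ⟨n, fun m hm => Subtype.ext (hn m hm).symm⟩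
  obtain ⟨⟨B, hB⟩, heB, hmax⟩ := hwf.wf.has_min {B : {B : AddSubgroup E // Stb Q B} | e ∉ B.1}
    ⟨⟨⊥, fun g x hx => by
      rw [AddSubgroup.mem_bot] at hx ⊢
      rw [hx, smul_zero]⟩, fun h => he h⟩
  letI := quoAct B hB
  have hπ : ∀ (q : Q) (x : E), q • (QuotientAddGroup.mk x : E ⧸ B) = QuotientAddGroup.mk (q • x) :=
    fun _ _ => rfl
  have hFG : FGM Q (E ⧸ B) := by
    classical
    obtain ⟨S, hS⟩ := hE
    refine ⟨S.image (QuotientAddGroup.mk (s := B)), ?_⟩
    rw [eq_top_iff]
    intro y _
    obtain ⟨x, rfl⟩ := QuotientAddGroup.mk_surjective y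
    have hx : x ∈ AddSubgroup.closure {a : E | ∃ g : Q, ∃ s ∈ S, a = g • s} := by
      rw [hS]; trivial
    induction hx using AddSubgroup.closure_induction with
    | mem x hx =>
      obtain ⟨g, s, hs, rfl⟩ := hx
      exact AddSubgroup.subset_closure ⟨g, _, Finset.mem_image_of_mem _ hs, rfl⟩
    | zero => exact zero_mem _
    | add a b _ _ ha hb =>
      rw [QuotientAddGroup.mk_add]
      exact add_mem (ha trivial) (hb trivial)
    | neg a _ ha =>
      rw [QuotientAddGroup.mk_neg]
      exact neg_mem (ha trivial)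
  have hmono : Mono Q (QuotientAddGroup.mk e : E ⧸ B) := by
    refine ⟨fun h0 => heB ((QuotientAddGroup.eq_zero_iff e).1 h0), fun C hC hC0 => ?_⟩
    let C' : AddSubgroup E := C.comap (QuotientAddGroup.mk' B)
    have hC' : Stb Q C' := fun q x hx => hC q _ hx
    have hBC : B ≤ C' := by
      intro x hx
      change (QuotientAddGroup.mk x : E ⧸ B) ∈ C
      rw [(QuotientAddGroup.eq_zero_iff x).2 hx]
      exact C.zero_mem
    have hne : B ≠ C' := by
      intro h
      apply hC0
      rw [eq_bot_iff]
      intro y hy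
      obtain ⟨x, rfl⟩ := QuotientAddGroup.mk_surjective y
      have : x ∈ C' := hy
      rw [← h] at this
      exact (QuotientAddGroup.eq_zero_iff x).2 this
    by_contra hcon
    exact hmax ⟨C', hC'⟩ hcon (lt_of_le_of_ne hBC (fun h => hne (congrArg Subtype.val h)))
  haveI := mono_finite hFG _ hmono
  exact ⟨B, hB, AddSubgroup.finiteIndex_of_finite_quotient, heB⟩

end Pool.Agent.T2h8.FGRF
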