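import Pool.Agent.T2h8.FGRF.Hall4

/-!
# P. Hall: monolithic modules over nilpotent-by-finite groups are finite
-/

set_option autoImplicit false
set_option linter.unusedSectionVars false
set_option linter.style.haveILetI false

namespace Pool.Agent.T2h8.FGRF

open Pool.Agent.Helper294.HallC Pool.Agent.H53R2

theorem hall_virt {G E : Type} [Group G] [Group.FG G] [AddCommGroup E] [DistribMulAction G E]
    (H : Subgroup G) [H.Normal] [H.FiniteIndex] (m : ℕ)
    (hm : ∀ g ∈ Lw H m H, ∀ a : E, g • a = a) (hE : FGM G E) (e : E) (he : Mono G e) :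
    Finite E := by
  classical
  haveI hHfg : Group.FG ↥H := Subgroup.fg_of_index_ne_zero H
  haveI : Group.FG (Img ↥H E) := Group.fg_of_surjective toImg_surj
  haveI : Group.IsNilpotent (Img ↥H E) := by
    apply E_nilp m
    have h3 := map_Lw (toImg ↥H E) (⊤ : Subgroup ↥H) m ⊤
    rw [Subgroup.map_top_of_surjective _ toImg_surj] at h3
    rw [← h3, eq_bot_iff]
    rintro _ ⟨x, hx, rfl⟩
    rw [Subgroup.mem_bot]
    apply img_faithful
    intro a
    rw [toImg_smul]
    have h2 : (x : G) ∈ (Lw (⊤ : Subgroup ↥H) m ⊤).map H.subtype := ⟨x, hx, rfl⟩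
    rw [E_map_mk] at h2
    exact hm x h2 a
  have hfin : Finite (G ⧸ H) := inferInstance
  haveI := Fintype.ofFinite (G ⧸ H)
  have hdec : ∀ g : G, ∃ (c : G ⧸ H) (h : G), h ∈ H ∧ g = h * (c.out)⁻¹ := by
    intro g
    obtain ⟨h, hh⟩ := QuotientGroup.mk_out_eq_mul H g⁻¹
    refine ⟨(g⁻¹ : G), h, h.2, ?_⟩
    rw [hh]
    group
  have hE' : FGM (Img ↥H E) E := by
    apply img_fgm
    obtain ⟨S, hS⟩ := hE
    refine ⟨Finset.univ.biUnion fun c : G ⧸ H => S.image fun s => (c.out)⁻¹ • s, ?_⟩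
    rw [eq_top_iff, ← hS, AddSubgroup.closure_le]
    rintro _ ⟨g, s, hs, rfl⟩
    obtain ⟨c, h, hh, rfl⟩ := hdec g
    refine AddSubgroup.subset_closure ⟨⟨h, hh⟩, (c.out)⁻¹ • s, ?_, ?_⟩
    · exact Finset.mem_biUnion.2 ⟨c, Finset.mem_univ _, Finset.mem_image_of_mem _ hs⟩
    · rw [mul_smul]
      rfl
  obtain ⟨B, hB, hBfin, heB⟩ := hall_rf hE' e he.1
  rw [img_stb] at hB
  have hBH : ∀ h ∈ H, ∀ x ∈ B, h • x ∈ B := fun h hh x hx => hB ⟨h, hh⟩ x hx
  let B' : AddSubgroup E := ⨅ c : G ⧸ H, B.comap (DistribSMul.toAddMonoidHom E (c.out)⁻¹)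
  have hmem : ∀ x, x ∈ B' ↔ ∀ g : G, g • x ∈ B := by
    intro x
    constructor
    · intro hx g
      obtain ⟨c, h, hh, rfl⟩ := hdec g
      rw [mul_smul]
      apply hBH h hh
      exact (AddSubgroup.mem_iInf.1 hx) c
    · intro hx
      exact AddSubgroup.mem_iInf.2 fun c => hx _
  have hB'fin : B'.FiniteIndex := by
    refine AddSubgroup.finiteIndex_iInf fun c => ⟨?_⟩
    rw [AddSubgroup.index_comap_of_surjective]
    · exact hBfin.index_ne_zero
    · intro y
      exact ⟨(c.out) • y, by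
        change (c.out)⁻¹ • (c.out) • y = y
        rw [inv_smul_smul]⟩
  have hB'st : Stb G B' := by
    intro g x hx
    rw [hmem] at hx ⊢
    intro g'
    rw [← mul_smul]
    exact hx _
  have hB'0 : B' = ⊥ := by
    by_contra h0
    have h1 := he.2 B' hB'st h0
    rw [hmem] at h1
    have := h1 1
    rw [one_smul] at this
    exact heB this
  rw [hB'0] at hB'fin
  have h2 := hB'fin.index_ne_zero
  rw [AddSubgroup.index_bot] at h2
  exact Nat.finite_of_card_ne_zero h2

/-- a group acting on a module of finite exponent through a nilpotent-by-finite torsion group -/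
theorem fin_virt {G E : Type} [Group G] [Group.FG G] [AddCommGroup E] [DistribMulAction G E]
    (H : Subgroup G) [H.Normal] [H.FiniteIndex] (m : ℕ)
    (hm : ∀ g ∈ Lw H m H, ∀ a : E, g • a = a)
    (hn : ∀ g ∈ H, ∃ n : ℕ, 0 < n ∧ ∀ a : E, g ^ n • a = a) (hE : FGM G E) (N : ℕ) (hN0 : 0 < N)
    (hN : ∀ a : E, N • a = 0) : Finite E := by
  haveI hHfg : Group.FG ↥H := Subgroup.fg_of_index_ne_zero H
  haveI : Group.FG (Img ↥H E) := Group.fg_of_surjective toImg_surj
  haveI : Group.IsNilpotent (Img ↥H E) := by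
    apply E_nilp m
    have h3 := map_Lw (toImg ↥H E) (⊤ : Subgroup ↥H) m ⊤
    rw [Subgroup.map_top_of_surjective _ toImg_surj] at h3
    rw [← h3, eq_bot_iff]
    rintro _ ⟨x, hx, rfl⟩
    rw [Subgroup.mem_bot]
    apply img_faithful
    intro a
    rw [toImg_smul]
    have h2 : (x : G) ∈ (Lw (⊤ : Subgroup ↥H) m ⊤).map H.subtype := ⟨x, hx, rfl⟩
    rw [E_map_mk] at h2
    exact hm x h2 a
  haveI hfinH : Finite (Img ↥H E) := by
    refine Helper111.EN.finite_of_fg_nilpotent _ fun z => ?_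
    obtain ⟨x, rfl⟩ := toImg_surj z
    obtain ⟨n, hn0, hn⟩ := hn x x.2
    refine isOfFinOrder_iff_pow_eq_one.2 ⟨n, hn0, ?_⟩
    apply img_faithful
    intro a
    rw [← map_pow, toImg_smul]
    exact hn a
  -- the whole group acts through a finite group
  haveI : Finite (Img G E) := by
    let K : Subgroup (Img G E) := H.map (toImg G E)
    have hKfin : Finite ↥K := by
      let φ : Img ↥H E → K := fun q => ⟨⟨q.1, by
        obtain ⟨x, hx⟩ := q.2
        exact ⟨x, hx⟩⟩, by
        obtain ⟨x, hx⟩ := q.2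
        exact ⟨x, x.2, Subtype.ext hx⟩⟩
      refine Finite.of_surjective φ ?_
      rintro ⟨_, x, hx, rfl⟩
      exact ⟨toImg ↥H E ⟨x, hx⟩, rfl⟩
    have hKidx : K.index ≠ 0 := by
      intro h0
      have h1 := Subgroup.index_map_dvd H (f := toImg G E) toImg_surj
      have h2 : (H.map (toImg G E)).index = 0 := h0
      rw [h2] at h1
      exact Subgroup.FiniteIndex.index_ne_zero (Nat.eq_zero_of_zero_dvd h1)
    haveI : K.FiniteIndex := ⟨hKidx⟩
    exact (Subgroup.finite_iff_finite_and_finiteIndex K).2 ⟨hKfin, inferInstance⟩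
  exact fin_of_fin (img_fgm hE) N hN0 hN

end Pool.Agent.T2h8.FGRF
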